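import Pool.Graph.R_seed8.R482.KB.S2
import Pool.Graph.R_seed8.R482.KB.Asm
import Pool.Graph.R_seed8.R482.KB.S3

/-!
# Reversed primes with prescribed two leading digits (helper14)

The first theorem is the library's `primesWithDigits` for all residue classes modulo `b ^ 2`.
-/

set_option autoImplicit false
set_option linter.unusedSectionVars false
set_option linter.deprecated false

namespace Pool.Agent.H14.RP
open Finset
open Pool.Agent.H373R2.T7 Pool.Agent.R482.KB Pool.Agent.R456.RP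
open scoped Pointwise

/-- for large `L` there is a prime with `L + 1` digits in base `b` in a given residue class modulo
`b ^ 2` -/
theorem primes2 (b : ℕ) (hb : 2 ≤ b) (a : ℕ) (hab : a < b ^ 2) (hcop : Nat.Coprime a b) : ∃ L0 : ℕ,
    ∀ L : ℕ, L0 ≤ L → ∃ p : ℕ, p.Prime ∧ b ^ L ≤ p ∧ p < b ^ (L + 1) ∧ p % b ^ 2 = a := by
  obtain ⟨q, hq⟩ : ∃ q, q = b ^ 2 := ⟨_, rfl⟩
  have hb0 : 0 < b := by omega
  have hq0 : 1 ≤ q := by rw [hq]; exact Nat.one_le_pow _ _ hb0
  have hcq : a.Coprime q := by rw [hq]; exact Nat.Coprime.pow_right 2 hcop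
  obtain ⟨y0, hy0⟩ := sw_lam 1 1
  obtain ⟨C, N1, hC, hN1⟩ := pnt_lam 1
  obtain ⟨z1, hz1⟩ := ev_L' (32 * q * (C + 1) + q + 1)
  obtain ⟨z2, hz2⟩ := ev_log' 1 (64 * q)
  obtain ⟨z3, hz3⟩ : ∃ z3 : ℕ, z3 = 256 * q := ⟨_, rfl⟩
  refine ⟨y0 + N1 + z1 + z2 + z3 + 2, fun L hL => ?_⟩
  obtain ⟨y₁, hy₁⟩ : ∃ y, y = b ^ L := ⟨_, rfl⟩
  obtain ⟨y₂, hy₂⟩ : ∃ y, y = b ^ (L + 1) := ⟨_, rfl⟩
  have hLy : L < y₁ := by rw [hy₁]; exact Nat.lt_pow_self (by omega)
  have hy12 : y₂ = b * y₁ := by rw [hy₁, hy₂, pow_succ']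
  have h2y : 2 * y₁ ≤ y₂ := by rw [hy12]; exact Nat.mul_le_mul_right _ hb
  by_contra hcon
  push Not at hcon
  -- the sum consists of proper prime powers
  have hnp : lamAP y₂ q a - lamAP y₁ q a ≤ 2 * √(y₂ : ℝ) * Real.log y₂ := by
    rw [lamAP_sub y₁ y₂ q a (by omega)]
    have h1 := Chebyshev.psi_sub_theta_le (show (1 : ℝ) ≤ y₂ by exact_mod_cast (by omega : 1 ≤ y₂))
    rw [Chebyshev.psi_sub_theta_eq_sum_not_prime, Nat.floor_natCast] at h1
    refine le_trans ?_ h1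
    apply sum_le_sum_of_subset_of_nonneg _ (fun _ _ _ => ArithmeticFunction.vonMangoldt_nonneg)
    intro n hn
    rw [mem_filter, mem_Ioc] at hn
    rw [mem_filter, mem_Ioc]
    refine ⟨⟨by omega, hn.1.2⟩, fun hp => ?_⟩
    have hne : n ≠ y₂ := by
      intro h
      rw [h, hy₂] at hp
      exact Nat.Prime.not_prime_pow (by omega) hp
    have h3 := hcon n hp (by rw [← hy₁]; omega) (by rw [← hy₂]; omega)
    apply h3
    have h4 : n % q = a % q := hn.2
    rw [← hq, h4]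
    apply Nat.mod_eq_of_lt
    rw [hq]
    exact hab
  -- lower bound
  have hφ0 : 0 < Nat.totient q := Nat.totient_pos.2 hq0
  have hφ : (0 : ℝ) < (Nat.totient q : ℝ) := by exact_mod_cast hφ0
  have hφ1 : (1 : ℝ) ≤ (Nat.totient q : ℝ) := by exact_mod_cast hφ0
  have hφq : (Nat.totient q : ℝ) ≤ q := by exact_mod_cast Nat.totient_le q
  have hqr : (1 : ℝ) ≤ q := by exact_mod_cast hq0
  have hest : ∀ y : ℕ, y₁ ≤ y → |lamAP y q a - y / (Nat.totient q : ℝ)| ≤ (C + 1) * (y / Real.log y) + 2 := by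
    intro y hy
    have hl := hz1 y (by omega)
    have hlogpos : 0 < Real.log y := by
      have : (0 : ℝ) < 32 * q * (C + 1) := by positivity
      linarith
    have h1 := hy0 y (by omega) q hq0 (by
      rw [pow_one]
      have : (0 : ℝ) < 32 * q * (C + 1) := by positivity
      linarith) a hcq
    have h2 := hN1 y (by omega)
    rw [pow_one] at h1 h2
    have h3 : lamAP y q a - y / (Nat.totient q : ℝ) = (lamAP y q a - lam1 y / (Nat.totient q : ℝ)) + (lam1 y - y) / (Nat.totient q : ℝ) := by ring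
    rw [h3]
    refine (abs_add_le _ _).trans ?_
    rw [abs_div, abs_of_pos hφ]
    have h4 : |lam1 y - y| / (Nat.totient q : ℝ) ≤ |lam1 y - y| := div_le_self (abs_nonneg _) hφ1
    have h5 : 0 ≤ (y : ℝ) / Real.log y := by positivity
    nlinarith
  have e1 := abs_le.1 (hest y₁ le_rfl)
  have e2 := abs_le.1 (hest y₂ (by omega))
  have hl1 := hz1 y₁ (by omega)
  have hl2 := hz2 y₂ (by omega)
  rw [pow_one] at hl2
  obtain ⟨Y, hY⟩ : ∃ Y : ℝ, Y = y₂ := ⟨_, rfl⟩
  obtain ⟨Y₁, hY₁⟩ : ∃ Y : ℝ, Y = y₁ := ⟨_, rfl⟩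
  rw [← hY₁] at e1 hl1
  rw [← hY] at e2 hl2 hnp
  have hYY : 2 * Y₁ ≤ Y := by rw [hY, hY₁]; exact_mod_cast h2y
  have hY1 : 1 ≤ Y₁ := by rw [hY₁]; exact_mod_cast (by omega : 1 ≤ y₁)
  have hY256 : 256 * (q : ℝ) ≤ Y₁ := by
    rw [hY₁]
    have : 256 * q ≤ y₁ := by omega
    exact_mod_cast this
  have hlog12 : Real.log Y₁ ≤ Real.log Y := Real.log_le_log (by linarith) (by linarith)
  have hcp : (0 : ℝ) < 32 * q * (C + 1) := by positivity
  have hlog1 : 32 * q * (C + 1) ≤ Real.log Y₁ := by linarith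
  have hlp : 0 < Real.log Y₁ := by linarith
  have f1 : (C + 1) * (Y₁ / Real.log Y₁) ≤ Y / (32 * q) := by
    rw [← mul_div_assoc, div_le_div_iff₀ hlp (by positivity)]
    calc (C + 1) * Y₁ * (32 * q) = (32 * q * (C + 1)) * Y₁ := by ring
      _ ≤ Real.log Y₁ * Y := mul_le_mul hlog1 (by linarith) (by linarith) hlp.le
      _ = Y * Real.log Y₁ := by ring
  have f2 : (C + 1) * (Y / Real.log Y) ≤ Y / (32 * q) := by
    rw [← mul_div_assoc, div_le_div_iff₀ (by linarith) (by positivity)]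
    calc (C + 1) * Y * (32 * q) = (32 * q * (C + 1)) * Y := by ring
      _ ≤ Real.log Y * Y := mul_le_mul_of_nonneg_right (by linarith) (by linarith)
      _ = Y * Real.log Y := by ring
  have f3 : 2 * √Y * Real.log Y ≤ Y / (32 * q) := by
    rw [le_div_iff₀ (by positivity)]
    have hs : √Y * √Y = Y := Real.mul_self_sqrt (by linarith)
    calc 2 * √Y * Real.log Y * (32 * q) = √Y * (64 * q * Real.log Y) := by ring
      _ ≤ √Y * √Y := mul_le_mul_of_nonneg_left hl2 (Real.sqrt_nonneg _)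
      _ = Y := hs
  have f4 : (4 : ℝ) ≤ Y / (32 * q) := by
    rw [le_div_iff₀ (by positivity)]
    nlinarith
  have f5 : Y / (2 * q) ≤ Y / (Nat.totient q : ℝ) - Y₁ / (Nat.totient q : ℝ) := by
    rw [← sub_div, div_le_div_iff₀ (by positivity) hφ]
    calc Y * (Nat.totient q : ℝ) ≤ Y * q := mul_le_mul_of_nonneg_left hφq (by linarith)
      _ ≤ (Y - Y₁) * (2 * q) := by nlinarith
  have f6 : Y / (2 * q) = 16 * (Y / (32 * q)) := by
    field_simp
    ring
  have f7 : 0 < Y / (32 * q) := by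
    have : 0 < Y := by linarith
    positivity
  linarith [e1.2, e2.1]

/-- a reversed prime near `d b ^ L + e b ^ (L - 1)` -/
lemma near2 (b : ℕ) (hb : 2 ≤ b) (d e : ℕ) (hd : d < b) (he : e < b)
    (hc : Nat.Coprime d b) : ∃ L0 : ℕ, 1 ≤ L0 ∧ ∀ L : ℕ, L0 ≤ L →
    ∃ x : ℕ, IsRev b x ∧ d * b ^ L + e * b ^ (L - 1) ≤ x ∧
      x ≤ d * b ^ L + e * b ^ (L - 1) + b ^ (L - 1) := by
  have hlt : d + e * b < b ^ 2 := by
    have h1 : (e + 1) * b ≤ b * b := Nat.mul_le_mul_right _ he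
    rw [pow_two]
    calc d + e * b < b + e * b := Nat.add_lt_add_right hd _
      _ = (e + 1) * b := by ring
      _ ≤ b * b := h1
  have hc' : Nat.Coprime (d + e * b) b := by
    rw [Nat.Coprime, Nat.gcd_add_mul_right_left]
    exact hc
  obtain ⟨L0, h⟩ := primes2 b hb (d + e * b) hlt hc'
  refine ⟨L0 + 2, by omega, ?_⟩
  intro L hL
  obtain ⟨p, hp, h1, h2, h3⟩ := h L (by omega)
  have hb0 : 0 < b := by omega
  have hmem : p ∈ Pr b (L + 1) := by
    unfold Pr
    rw [mem_filter, mem_Ico]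
    exact ⟨⟨by simpa using h1, h2⟩, hp⟩
  have hpb : p % b = d := by
    have h4 : p % b ^ 2 % b = p % b := Nat.mod_mod_of_dvd p (dvd_pow_self b (by norm_num))
    rw [h3, Nat.add_mul_mod_self_right, Nat.mod_eq_of_lt hd] at h4
    exact h4.symm
  have hpb2 : p / b % b = e := by
    have h4 : p % (b * b) / b = p / b % b := Nat.mod_mul_right_div_self p b b
    rw [← sq, h3, Nat.add_mul_div_right _ _ hb0, Nat.div_eq_of_lt hd, zero_add] at h4
    exact h4.symm
  obtain ⟨k, rfl⟩ : ∃ k, L = k + 1 := ⟨L - 1, by omega⟩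
  have e1 : rev b (k + 1 + 1) p = d * b ^ (k + 1) + rev b (k + 1) (p / b) := by
    have h4 := rev_low b (k + 1) hb0 (p / b) (p % b) (Nat.mod_lt _ hb0)
    rw [Nat.mul_comm (p / b) b, Nat.div_add_mod] at h4
    rw [h4, hpb]
  have e2 : rev b (k + 1) (p / b) = e * b ^ k + rev b k (p / b / b) := by
    have h4 := rev_low b k hb0 (p / b / b) (p / b % b) (Nat.mod_lt _ hb0)
    rw [Nat.mul_comm (p / b / b) b, Nat.div_add_mod] at h4
    rw [h4, hpb2]
  have e3 : rev b k (p / b / b) < b ^ k := by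
    apply rev_lt b k hb0
    rw [Nat.div_div_eq_div_mul]
    apply Nat.div_lt_of_lt_mul
    calc p < b ^ (k + 1 + 1) := h2
      _ = b * b * b ^ k := by ring
  refine ⟨rev b (k + 1 + 1) p, isRev_of_mem b (k + 1 + 1) p hb (by omega) hmem, ?_, ?_⟩
  · rw [e1, e2, Nat.add_sub_cancel]; omega
  · rw [e1, e2, Nat.add_sub_cancel]
    omega

/-- uniformly in the digits -/
lemma near2_all (b : ℕ) (hb : 2 ≤ b) : ∃ L0 : ℕ, 1 ≤ L0 ∧ ∀ L : ℕ, L0 ≤ L →
    ∀ d e : ℕ, d < b → e < b → Nat.Coprime d b →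
    ∃ x : ℕ, IsRev b x ∧ d * b ^ L + e * b ^ (L - 1) ≤ x ∧
      x ≤ d * b ^ L + e * b ^ (L - 1) + b ^ (L - 1) := by
  have h : ∀ a : ℕ × ℕ, ∃ L0 : ℕ, 1 ≤ L0 ∧ ∀ L : ℕ, L0 ≤ L → a.1 < b → a.2 < b → Nat.Coprime a.1 b →
      ∃ x : ℕ, IsRev b x ∧ a.1 * b ^ L + a.2 * b ^ (L - 1) ≤ x ∧
        x ≤ a.1 * b ^ L + a.2 * b ^ (L - 1) + b ^ (L - 1) := by
    intro a
    by_cases hab : a.1 < b ∧ a.2 < b ∧ Nat.Coprime a.1 b
    · obtain ⟨L0, h1, h2⟩ := near2 b hb a.1 a.2 hab.1 hab.2.1 hab.2.2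
      exact ⟨L0, h1, fun L hL _ _ _ => h2 L hL⟩
    · exact ⟨1, le_rfl, fun L _ h1 h2 h3 => absurd ⟨h1, h2, h3⟩ hab⟩
  choose f hf1 hf2 using h
  refine ⟨∑ a ∈ range b ×ˢ range b, f a, ?_, ?_⟩
  · calc 1 ≤ f (0, 0) := hf1 _
      _ ≤ _ := single_le_sum (f := f) (fun _ _ => Nat.zero_le _)
        (mem_product.2 ⟨mem_range.2 (by omega), mem_range.2 (by omega)⟩)
  · intro L hL d e hd he hc
    apply hf2 (d, e) L _ hd he hc
    exact (single_le_sum (f := f) (fun _ _ => Nat.zero_le _)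
      (mem_product.2 ⟨mem_range.2 hd, mem_range.2 he⟩)).trans hL

/-- the digits give reversed primes, with a free choice of the sum -/
lemma digits_rev2 (b L : ℕ) (hb : 2 ≤ b) (hL : 1 ≤ L) (hx : ∀ d e : ℕ, d < b → e < b → Nat.Coprime d b →
    ∃ x : ℕ, IsRev b x ∧ d * b ^ L + e * b ^ (L - 1) ≤ x ∧
      x ≤ d * b ^ L + e * b ^ (L - 1) + b ^ (L - 1)) (l : List ℕ) :
    (∀ a ∈ l, 1 ≤ a ∧ a < b ∧ Nat.Coprime a b) → ∀ j : ℕ, j ≤ l.length →
    ∃ l' : List ℕ, l'.length = l.length ∧ (∀ r ∈ l', IsRev b r) ∧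
      (l.sum + j) * b ^ L ≤ l'.sum + l.length * b ^ (L - 1) ∧
      l'.sum ≤ (l.sum + j) * b ^ L + l.length * b ^ (L - 1) := by
  have hbL : b ^ L = b * b ^ (L - 1) := by
    rw [← pow_succ']
    congr 1
    omega
  induction l with
  | nil =>
    intro _ j hj
    have hj0 : j = 0 := by simpa using hj
    subst hj0
    exact ⟨[], by simp, by simp, by simp, by simp⟩
  | cons a l ih =>
    intro hl j hj
    obtain ⟨_, h5, h6⟩ := hl a List.mem_cons_self
    have ih' := ih (fun z hz => hl z (List.mem_cons_of_mem _ hz))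
    rw [List.length_cons] at hj
    rcases Nat.eq_zero_or_pos j with h0 | h0
    · obtain ⟨l', h1, h2, h3, h4⟩ := ih' 0 (Nat.zero_le _)
      obtain ⟨x, hx1, hx2, hx3⟩ := hx a 0 h5 (by omega) h6
      refine ⟨x :: l', ?_, ?_, ?_, ?_⟩
      · simp only [List.length_cons]; omega
      · intro z hz
        rw [List.mem_cons] at hz
        rcases hz with rfl | hz
        · exact hx1
        · exact h2 z hz
      · rw [List.sum_cons, List.sum_cons, List.length_cons, h0]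
        have e1 : (a + l.sum + 0) * b ^ L = a * b ^ L + (l.sum + 0) * b ^ L := by ring
        have e2 : (l.length + 1) * b ^ (L - 1) = l.length * b ^ (L - 1) + b ^ (L - 1) := by ring
        rw [e1, e2]
        omega
      · rw [List.sum_cons, List.sum_cons, List.length_cons, h0]
        have e1 : (a + l.sum + 0) * b ^ L = a * b ^ L + (l.sum + 0) * b ^ L := by ring
        have e2 : (l.length + 1) * b ^ (L - 1) = l.length * b ^ (L - 1) + b ^ (L - 1) := by ring
        rw [e1, e2]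
        omega
    · obtain ⟨l', h1, h2, h3, h4⟩ := ih' (j - 1) (by omega)
      obtain ⟨x, hx1, hx2, hx3⟩ := hx a (b - 1) h5 (by omega) h6
      have e3 : (b - 1) * b ^ (L - 1) + b ^ (L - 1) = b ^ L := by
        calc (b - 1) * b ^ (L - 1) + b ^ (L - 1) = ((b - 1) + 1) * b ^ (L - 1) := by ring
          _ = b * b ^ (L - 1) := by rw [Nat.sub_add_cancel (by omega)]
          _ = b ^ L := hbL.symm
      refine ⟨x :: l', ?_, ?_, ?_, ?_⟩
      · simp only [List.length_cons]; omega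
      · intro z hz
        rw [List.mem_cons] at hz
        rcases hz with rfl | hz
        · exact hx1
        · exact h2 z hz
      · rw [List.sum_cons, List.sum_cons, List.length_cons]
        have e1 : (a + l.sum + j) * b ^ L = a * b ^ L + (l.sum + (j - 1)) * b ^ L + b ^ L := by
          obtain ⟨i, rfl⟩ : ∃ i, j = i + 1 := ⟨j - 1, by omega⟩
          rw [Nat.add_sub_cancel]
          ring
        have e2 : (l.length + 1) * b ^ (L - 1) = l.length * b ^ (L - 1) + b ^ (L - 1) := by ring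
        rw [e1, e2]
        omega
      · rw [List.sum_cons, List.sum_cons, List.length_cons]
        have e1 : (a + l.sum + j) * b ^ L = a * b ^ L + (l.sum + (j - 1)) * b ^ L + b ^ L := by
          obtain ⟨i, rfl⟩ : ∃ i, j = i + 1 := ⟨j - 1, by omega⟩
          rw [Nat.add_sub_cancel]
          ring
        have e2 : (l.length + 1) * b ^ (L - 1) = l.length * b ^ (L - 1) + b ^ (L - 1) := by ring
        rw [e1, e2]
        omega

/-- The bound for one base. -/
theorem one_base2 (b : ℕ) (hb : 8 ≤ b)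
    (hrho : (rho b / b) ^ 8 ≤ b) (h : ℕ) (hh : 5 * (66 * Fi b) ^ 4 ≤ h) (m : ℕ)
    (hm : ∀ t : ℕ, t ≤ (6 * h + 1) * b → ∃ l : List ℕ, l.length ≤ m ∧
      (∀ a ∈ l, 1 ≤ a ∧ a < b ∧ Nat.Coprime a b) ∧ l.sum ≤ t ∧ t ≤ l.sum + l.length) (hmb : 2 * m ≤ b) :
    Cov b (6 * h + m) := by
  classical
  have hb2 : 2 ≤ b := by omega
  have hb0 : 0 < b := by omega
  have hFi1 := one_le_Fi b hb2
  set δ : ℝ := 1 / (66 * Fi b) ^ 4 with hδ
  have hpos : 0 < (66 * Fi b) ^ 4 := by positivity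
  have hone : 1 ≤ (66 * Fi b) ^ 4 := one_le_pow₀ (by linarith)
  have hδ0 : 0 < δ := by positivity
  have hδ1 : δ ≤ 1 := by
    rw [hδ, div_le_one hpos]
    exact hone
  have hδh : 5 ≤ δ * h := by
    rw [hδ, one_div, inv_mul_eq_div, le_div_iff₀ hpos]
    exact hh
  obtain ⟨L0, hL0⟩ := dense b hb hrho
  obtain ⟨L1, hL11, hL1⟩ := near2_all b hb2
  set L2 := max L0 L1 with hL2
  refine ⟨(6 * h + 1) * b ^ L2, ?_⟩
  intro N hN
  set L := Nat.log b (N / (6 * h + 1)) with hL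
  have hNdiv : b ^ L2 ≤ N / (6 * h + 1) := by
    rw [Nat.le_div_iff_mul_le (by omega)]
    calc b ^ L2 * (6 * h + 1) = (6 * h + 1) * b ^ L2 := by ring
      _ ≤ N := hN
  have hne : N / (6 * h + 1) ≠ 0 := by
    have : 0 < b ^ L2 := by positivity
    omega
  have hLL2 : L2 ≤ L := Nat.le_log_of_pow_le (by omega) hNdiv
  have hLL0 : L0 ≤ L := (le_max_left _ _).trans hLL2
  have hLL1 : L1 ≤ L := (le_max_right _ _).trans hLL2
  have hpow1 : b ^ L ≤ N / (6 * h + 1) := Nat.pow_log_le_self b hne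
  have hpow2 : N / (6 * h + 1) < b ^ (L + 1) := Nat.lt_pow_succ_log_self (by omega) _
  set X := b ^ L with hX
  have hX0 : 0 < X := by positivity
  have hNX : (6 * h + 1) * X ≤ N := by
    rw [Nat.le_div_iff_mul_le (by omega)] at hpow1
    calc (6 * h + 1) * X = X * (6 * h + 1) := by ring
      _ ≤ N := hpow1
  have hNX2 : N < (6 * h + 1) * b * X := by
    rw [Nat.div_lt_iff_lt_mul (by omega)] at hpow2
    calc N < b ^ (L + 1) * (6 * h + 1) := hpow2
      _ = (6 * h + 1) * b * X := by rw [hX]; ring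
  -- the covering
  set S := (Pr b L).image (rev b L) + (Pr b L).image (rev b L) with hS
  have hSlt : ∀ x ∈ S, x < 2 * X := by
    intro x hx
    rw [hS, mem_add] at hx
    obtain ⟨r, hr, s, hs, rfl⟩ := hx
    rw [mem_image] at hr hs
    obtain ⟨p, hp, rfl⟩ := hr
    obtain ⟨p', hp', rfl⟩ := hs
    unfold Pr at hp hp'
    rw [mem_filter, mem_Ico] at hp hp'
    have h1 := rev_lt b L hb0 p hp.1.2
    have h2 := rev_lt b L hb0 p' hp'.1.2
    omega
  have hScard : δ * (X : ℕ) ≤ S.card := by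
    have := hL0 L hLL0
    rw [hX]
    push_cast
    exact this
  obtain ⟨M, hM, hcov⟩ := covering S (2 * X) X h δ hX0 hδ0 hδ1 hδh rfl hSlt hScard
  -- the digits
  set W := 2 * h * (M + 2) with hW
  have hWle : W ≤ 6 * h * X := by
    rw [hW]
    have h1 : M + 2 ≤ 3 * X := by omega
    calc 2 * h * (M + 2) ≤ 2 * h * (3 * X) := Nat.mul_le_mul_left _ h1
      _ = 6 * h * X := by ring
  have h1X : (6 * h + 1) * X = 6 * h * X + X := by ring
  obtain ⟨N', hN'⟩ : ∃ N', N = W + N' := ⟨N - W, by omega⟩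
  have hN'X : X ≤ N' := by omega
  obtain ⟨Y, hY⟩ : ∃ Y, 2 * N' = X + Y := ⟨2 * N' - X, by omega⟩
  obtain ⟨t, ht⟩ : ∃ t, t = Y / (2 * X) := ⟨_, rfl⟩
  have ht1 : t * (2 * X) ≤ Y := by rw [ht]; exact Nat.div_mul_le_self _ _
  have ht2 : Y < t * (2 * X) + 2 * X := by
    have := Nat.lt_div_mul_add (a := Y) (b := 2 * X) (by omega)
    rw [← ht] at this
    exact this
  have htle : t ≤ (6 * h + 1) * b := by
    by_contra hcon
    push Not at hcon
    have h2 : (6 * h + 1) * b * (2 * X) ≤ t * (2 * X) := Nat.mul_le_mul_right _ (by omega)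
    have h3 : (6 * h + 1) * b * (2 * X) = 2 * ((6 * h + 1) * b * X) := by ring
    omega
  obtain ⟨la, hla1, hla2, hla3, hla4⟩ := hm t htle
  obtain ⟨lx, hlx1, hlx2, hlx3, hlx4⟩ := digits_rev2 b L hb2 (by omega) (hL1 L hLL1) la hla2 (t - la.sum)
    (by omega)
  have hst : la.sum + (t - la.sum) = t := by omega
  rw [hst] at hlx3 hlx4
  have herr : 2 * (la.length * b ^ (L - 1)) ≤ X := by
    calc 2 * (la.length * b ^ (L - 1)) = (2 * la.length) * b ^ (L - 1) := by ring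
      _ ≤ b * b ^ (L - 1) := Nat.mul_le_mul_right _ (by omega)
      _ = X := by
          rw [hX, ← pow_succ']
          congr 1
          omega
  have hxX : t * b ^ L = t * X := rfl
  rw [hxX] at hlx3 hlx4
  have h2X : t * (2 * X) = 2 * (t * X) := by ring
  rw [h2X] at ht1 ht2
  obtain ⟨n, hn⟩ : ∃ n, N' = lx.sum + n := ⟨N' - lx.sum, by omega⟩
  have hn2 : n ≤ 2 * X := by omega
  obtain ⟨ly, hly1, hly2, hly3⟩ := hcov n hn2
  obtain ⟨lz, hlz1, hlz2, hlz3⟩ := collect3 b L M (by omega) (by omega) ly hly2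
  refine ⟨lz ++ lx, ?_, ?_, ?_⟩
  · rw [List.length_append, hlz1, hly1, hlx1]
    omega
  · intro r hr
    rw [List.mem_append] at hr
    rcases hr with hr | hr
    · exact hlz2 r hr
    · exact hlx2 r hr
  · rw [List.sum_append, hlz3, hly1, hly3, hN', hn, hW]
    omega

end Pool.Agent.H14.RP
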