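import Mathlib
import Pool.Graph.R_seed8.Helper602.PNT

/-!
# Sums of digits coprime to the base (helper14)
-/

set_option autoImplicit false
set_option linter.unusedSectionVars false
set_option linter.deprecated false

namespace Pool.Agent.H14.RP
open Finset Filter

/-- a list of nonzero digits coprime to the base -/
def Dig (b : ℕ) (l : List ℕ) : Prop := ∀ a ∈ l, 1 ≤ a ∧ a < b ∧ Nat.Coprime a b

lemma Dig.append {b : ℕ} {l l' : List ℕ} (h : Dig b l) (h' : Dig b l') : Dig b (l ++ l') := by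
  intro a ha
  rw [List.mem_append] at ha
  rcases ha with ha | ha
  · exact h a ha
  · exact h' a ha

lemma Dig.replicate {b a : ℕ} (h : 1 ≤ a ∧ a < b ∧ Nat.Coprime a b) (n : ℕ) : Dig b (List.replicate n a) := by
  intro x hx
  rw [List.eq_of_mem_replicate hx]
  exact h

/-- the prime number theorem -/
lemma theta_bd (ε : ℝ) (hε : 0 < ε) : ∃ n₀ : ℕ, ∀ n : ℕ, n₀ ≤ n →
    (1 - ε) * n ≤ Chebyshev.theta n ∧ Chebyshev.theta n ≤ (1 + ε) * n := by
  have h1 := Pool.Agent.Helper602.PNT.theta_div_tendsto.comp (tendsto_natCast_atTop_atTop (R := ℝ))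
  have h2 := (Metric.tendsto_atTop.1 h1) ε hε
  obtain ⟨n₁, hn₁⟩ := h2
  refine ⟨max n₁ 1, fun n hn => ?_⟩
  have h3 := hn₁ n ((le_max_left _ _).trans hn)
  have hn0 : (0 : ℝ) < n := by exact_mod_cast ((le_max_right _ _).trans hn : 1 ≤ n)
  rw [Real.dist_eq] at h3
  simp only [Function.comp] at h3
  have h4 := abs_lt.1 h3
  have h5 : Chebyshev.theta n = Chebyshev.theta n / n * n := by field_simp
  rw [h5]
  constructor
  · apply mul_le_mul_of_nonneg_right _ hn0.le
    linarith
  · apply mul_le_mul_of_nonneg_right _ hn0.le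
    linarith

/-- if all the primes of an interval divide `b` -/
lemma theta_diff (b u v : ℕ) (hb : 0 < b) (huv : u ≤ v) (h : ∀ p : ℕ, p.Prime → u < p → p ≤ v → p ∣ b) :
    Chebyshev.theta v - Chebyshev.theta u ≤ Real.log b := by
  unfold Chebyshev.theta
  rw [Nat.floor_natCast, Nat.floor_natCast]
  have h1 : (Ioc 0 v).filter Nat.Prime = (Ioc 0 u).filter Nat.Prime ∪ (Ioc u v).filter Nat.Prime := by
    rw [← filter_union]
    congr 1
    ext n
    simp only [mem_union, mem_Ioc]
    omega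
  have h2 : Disjoint ((Ioc 0 u).filter Nat.Prime) ((Ioc u v).filter Nat.Prime) := by
    rw [disjoint_left]
    intro n hn hn'
    simp only [mem_filter, mem_Ioc] at hn hn'
    omega
  rw [h1, sum_union h2, add_sub_cancel_left]
  have h3 : ∏ p ∈ (Ioc u v).filter Nat.Prime, p ∣ b := by
    apply Finset.prod_primes_dvd
    · intro p hp
      exact (mem_filter.1 hp).2.prime
    · intro p hp
      rw [mem_filter, mem_Ioc] at hp
      exact h p hp.2 hp.1.1 hp.1.2
  have h4 : ∑ p ∈ (Ioc u v).filter Nat.Prime, Real.log p =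
      Real.log ((∏ p ∈ (Ioc u v).filter Nat.Prime, p : ℕ) : ℝ) := by
    push_cast
    rw [Real.log_prod]
    intro p hp
    have := (mem_filter.1 hp).2.pos
    positivity
  rw [h4]
  apply Real.log_le_log
  · have : 0 < ∏ p ∈ (Ioc u v).filter Nat.Prime, p := prod_pos fun p hp => (mem_filter.1 hp).2.pos
    exact_mod_cast this
  · exact_mod_cast Nat.le_of_dvd hb h3

/-- a prime just below `T` which does not divide `b` -/
lemma step_prime (K : ℕ) (hK : 2 ≤ K) : ∃ n₁ : ℕ, ∀ b T : ℕ, 0 < b → n₁ ≤ T → 2 * K * Real.log b < T →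
    ∃ p : ℕ, p.Prime ∧ ¬ p ∣ b ∧ p ≤ T ∧ (T - p) * K ≤ T := by
  have hK0 : (0 : ℝ) < K := by exact_mod_cast (by omega : 0 < K)
  have hK2 : (2 : ℝ) ≤ K := by exact_mod_cast hK
  obtain ⟨n₀, hn₀⟩ := theta_bd (1 / (8 * K)) (by positivity)
  refine ⟨2 * n₀ + 8 * K + 8, ?_⟩
  intro b T hb hT hTb
  by_contra hcon
  push Not at hcon
  obtain ⟨m, hm⟩ : ∃ m, m = T / K := ⟨_, rfl⟩
  obtain ⟨u, hu⟩ : ∃ u, u = T - m := ⟨_, rfl⟩
  have hTK : m ≤ T / 2 := by rw [hm]; exact Nat.div_le_div_left hK (by norm_num)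
  have hTKr : (T : ℝ) / K - 1 ≤ (m : ℝ) := by
    rw [hm]
    have := Nat.lt_floor_add_one ((T : ℝ) / K)
    rw [Nat.floor_div_eq_div] at this
    linarith
  have hur : (u : ℝ) = T - (m : ℝ) := by
    rw [hu, Nat.cast_sub (by omega)]
  have hun : n₀ ≤ u := by omega
  have huT : u ≤ T := by omega
  have h1 := theta_diff b u T hb huT (by
    intro p hp hup hpT
    by_contra hpb
    have h2 := hcon p hp hpb hpT
    have h3 : T - p ≤ m := by omega
    have h4 : (T - p) * K ≤ m * K := Nat.mul_le_mul_right _ h3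
    have h5 : m * K ≤ T := by rw [hm]; exact Nat.div_mul_le_self _ _
    omega)
  have h2 := (hn₀ T (by omega)).1
  have h3 := (hn₀ u hun).2
  have hTr : (8 * K + 8 : ℝ) ≤ T := by
    have : 8 * K + 8 ≤ T := by omega
    exact_mod_cast this
  have hη : (0 : ℝ) < 1 / (8 * K) := by positivity
  have hη1 : 1 / (8 * (K : ℝ)) ≤ 1 / 16 := by
    apply one_div_le_one_div_of_le (by norm_num)
    linarith
  have h4 : (u : ℝ) ≤ T - T / K + 1 := by linarith
  have h5 : (1 + 1 / (8 * (K : ℝ))) * u ≤ (1 + 1 / (8 * (K : ℝ))) * (T - T / K + 1) :=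
    mul_le_mul_of_nonneg_left h4 (by linarith)
  have e1 : (T : ℝ) = T / K * K := by field_simp
  obtain ⟨y, hy⟩ : ∃ y : ℝ, y = T / K := ⟨_, rfl⟩
  rw [← hy] at h5 e1
  have hy8 : 8 ≤ y := by
    rw [hy, le_div_iff₀ hK0]
    linarith
  have e2 : 1 / (8 * (K : ℝ)) * T = y / 8 := by
    rw [e1]
    field_simp
  have e3 : 1 / (8 * (K : ℝ)) * y ≥ 0 := by positivity
  have h6 : y / 2 ≤ Real.log b := by
    nlinarith
  have h7 : T ≤ 2 * K * Real.log b := by
    rw [e1]
    nlinarith
  linarith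

/-- many steps -/
lemma steps (b K : ℕ) (R₀ : ℝ)
    (hp : ∀ T : ℕ, R₀ < T → ∃ p : ℕ, p.Prime ∧ ¬ p ∣ b ∧ p ≤ T ∧ (T - p) * K ≤ T) :
    ∀ T : ℕ, T < b → ∃ l : List ℕ, Dig b l ∧ l.sum ≤ T ∧ ((T - l.sum : ℕ) : ℝ) ≤ R₀ ∧
      (l = [] ∨ K ^ l.length ≤ K * T) := by
  intro T
  induction T using Nat.strong_induction_on with
  | _ T ih =>
    intro hTb
    rcases le_or_gt (T : ℝ) R₀ with h | h
    · exact ⟨[], by intro a ha; simp at ha, by simp, by simpa using h, Or.inl rfl⟩
    · obtain ⟨p, hpp, hpb, hpT, hpK⟩ := hp T h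
      have hp1 := hpp.one_lt
      obtain ⟨l', h1, h2, h3, h4⟩ := ih (T - p) (by omega) (by omega)
      refine ⟨p :: l', ?_, ?_, ?_, Or.inr ?_⟩
      · intro a ha
        rw [List.mem_cons] at ha
        rcases ha with rfl | ha
        · exact ⟨hp1.le, by omega, (Nat.Prime.coprime_iff_not_dvd hpp).2 hpb⟩
        · exact h1 a ha
      · rw [List.sum_cons]
        omega
      · rw [List.sum_cons]
        have e : T - (p + l'.sum) = T - p - l'.sum := by omega
        rw [e]
        exact h3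
      · rw [List.length_cons, pow_succ']
        apply Nat.mul_le_mul_left
        rcases h4 with h4 | h4
        · rw [h4]
          simp only [List.length_nil, pow_zero]
          omega
        · calc K ^ l'.length ≤ K * (T - p) := h4
            _ = (T - p) * K := Nat.mul_comm _ _
            _ ≤ T := hpK

/-- few summands, when the least prime not dividing `b` is large -/
lemma rest1 (b P : ℕ) (hb : 2 ≤ b) (hP1 : 1 ≤ P) (hPb : P < b) (hc : Nat.Coprime P b) (T : ℕ) :
    ∃ l : List ℕ, Dig b l ∧ l.sum ≤ T ∧ T ≤ l.sum + l.length ∧ 2 * l.length ≤ 2 * (T / P) + P := by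
  obtain ⟨r, hr⟩ : ∃ r, r = T % P := ⟨_, rfl⟩
  obtain ⟨q, hq⟩ : ∃ q, q = T / P := ⟨_, rfl⟩
  have hrP : r < P := by rw [hr]; exact Nat.mod_lt _ (by omega)
  have hT : q * P + r = T := by
    rw [hr, hq, Nat.mul_comm]
    exact Nat.div_add_mod T P
  refine ⟨List.replicate q P ++ List.replicate ((r + 1) / 2) 1, ?_, ?_, ?_, ?_⟩
  · exact (Dig.replicate ⟨hP1, hPb, hc⟩ _).append (Dig.replicate ⟨le_rfl, by omega, Nat.coprime_one_left b⟩ _)
  · rw [List.sum_append, List.sum_replicate, List.sum_replicate, smul_eq_mul, smul_eq_mul]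
    omega
  · rw [List.sum_append, List.sum_replicate, List.sum_replicate, smul_eq_mul, smul_eq_mul,
      List.length_append, List.length_replicate, List.length_replicate]
    omega
  · rw [List.length_append, List.length_replicate, List.length_replicate, ← hq]
    omega

/-- few summands, when `P` is small -/
lemma rest2 (b P : ℕ) (hb : 2 ≤ b) (hP2 : 2 ≤ P) (hc : Nat.Coprime P b) : ∀ k T : ℕ, T < 2 ^ k → T < b →
    ∃ l : List ℕ, Dig b l ∧ l.sum = T ∧ l.length ≤ P * k := by
  intro k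
  induction k with
  | zero =>
    intro T hT _
    have : T = 0 := by
      rw [pow_zero] at hT
      omega
    exact ⟨[], by intro a ha; simp at ha, by simp [this], by simp⟩
  | succ k ih =>
    intro T hT hTb
    have h1 : T / P ≤ T / 2 := Nat.div_le_div_left hP2 (by norm_num)
    have h2 : T / 2 < 2 ^ k := by
      rw [Nat.div_lt_iff_lt_mul (by norm_num)]
      rw [pow_succ] at hT
      exact hT
    obtain ⟨l', g1, g2, g3⟩ := ih (T / P) (by omega) ((Nat.div_le_self _ _).trans_lt hTb)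
    have hmod : T % P < P := Nat.mod_lt _ (by omega)
    refine ⟨l'.map (fun a => P * a) ++ List.replicate (T % P) 1, ?_, ?_, ?_⟩
    · apply Dig.append
      · intro a ha
        rw [List.mem_map] at ha
        obtain ⟨a', ha', rfl⟩ := ha
        obtain ⟨k1, k2, k3⟩ := g1 a' ha'
        refine ⟨Nat.mul_pos (by omega) k1, ?_, hc.mul_left k3⟩
        have h5 : a' ≤ l'.sum := List.le_sum_of_mem ha'
        rw [g2] at h5
        calc P * a' ≤ P * (T / P) := Nat.mul_le_mul_left _ h5
          _ ≤ T := Nat.mul_div_le _ _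
          _ < b := hTb
      · exact Dig.replicate ⟨le_rfl, by omega, Nat.coprime_one_left b⟩ _
    · rw [List.sum_append, List.sum_replicate, smul_eq_mul, mul_one, List.sum_map_mul_left, List.map_id', g2]
      exact Nat.div_add_mod T P
    · rw [List.length_append, List.length_map, List.length_replicate, Nat.mul_succ]
      omega

/-- the least prime which does not divide `b` -/
lemma least_prime (b : ℕ) (hb : 3 ≤ b) : ∃ P : ℕ, P.Prime ∧ ¬ P ∣ b ∧ P < b ∧
    Chebyshev.theta ((P - 1 : ℕ) : ℝ) ≤ Real.log b := by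
  have hex : ∃ p : ℕ, p.Prime ∧ ¬ p ∣ b := by
    obtain ⟨p, hp1, hp2⟩ := Nat.exists_infinite_primes (b + 1)
    exact ⟨p, hp2, fun h => by have := Nat.le_of_dvd (by omega) h; omega⟩
  obtain ⟨P, hP⟩ : ∃ P, P = Nat.find hex := ⟨_, rfl⟩
  have hspec := Nat.find_spec hex
  rw [← hP] at hspec
  refine ⟨P, hspec.1, hspec.2, ?_, ?_⟩
  · obtain ⟨p, hp1, hp2⟩ := Nat.exists_prime_and_dvd (show b - 1 ≠ 1 by omega)
    have h1 : p ≤ b - 1 := Nat.le_of_dvd (by omega) hp2
    have h2 : ¬ p ∣ b := by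
      intro h3
      have h4 : p ∣ b - (b - 1) := Nat.dvd_sub h3 hp2
      have h5 : b - (b - 1) = 1 := by omega
      rw [h5] at h4
      exact hp1.one_lt.ne' (Nat.dvd_one.1 h4)
    have h3 : P ≤ p := by
      rw [hP]
      exact Nat.find_min' hex ⟨hp1, h2⟩
    omega
  · have h1 := theta_diff b 0 (P - 1) (by omega) (Nat.zero_le _) (by
      intro p hp _ hpP
      by_contra hpb
      have h3 : P ≤ p := by
        rw [hP]
        exact Nat.find_min' hex ⟨hp, hpb⟩
      have := hspec.1.one_lt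
      omega)
    rw [Nat.cast_zero, Chebyshev.theta_zero, sub_zero] at h1
    exact h1

end Pool.Agent.H14.RP
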