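import Pool.Agent.H14.RP.Digits

/-!
# Sums of digits coprime to the base: the sharp constant (helper14)
-/

set_option autoImplicit false
set_option linter.unusedSectionVars false
set_option linter.deprecated false

namespace Pool.Agent.H14.RP
open Finset Filter

/-- Every `T < b` is within the number of summands of a sum of at most `(1 / 2 + ε) log b` digits
coprime to `b`. -/
theorem digits (ε : ℝ) (hε : 0 < ε) : ∃ b₀ : ℕ, ∀ b : ℕ, b₀ ≤ b → ∀ T : ℕ, T < b →
    ∃ l : List ℕ, Dig b l ∧ l.sum ≤ T ∧ T ≤ l.sum + l.length ∧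
      (l.length : ℝ) ≤ (1 / 2 + ε) * Real.log b := by
  -- the parameters
  obtain ⟨K, hK⟩ : ∃ K : ℕ, 2 ≤ K ∧ 4 / ε ≤ Real.log K := by
    have h1 := (Real.tendsto_log_atTop.comp (tendsto_natCast_atTop_atTop (R := ℝ))).eventually_ge_atTop (4 / ε)
    obtain ⟨K, hK⟩ := (h1.and (eventually_ge_atTop 2)).exists
    exact ⟨K, hK.2, hK.1⟩
  obtain ⟨hK2, hKlog⟩ := hK
  have hK0 : (0 : ℝ) < K := by exact_mod_cast (by omega : 0 < K)
  have hKl0 : 0 < Real.log K := lt_of_lt_of_le (by positivity) hKlog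
  obtain ⟨η, hη⟩ : ∃ η : ℝ, η = min (ε / 4) (1 / 2) := ⟨_, rfl⟩
  have hη0 : 0 < η := by rw [hη]; positivity
  have hη1 : η ≤ ε / 4 := by rw [hη]; exact min_le_left _ _
  have hη2 : η ≤ 1 / 2 := by rw [hη]; exact min_le_right _ _
  obtain ⟨n₀, hn₀⟩ := theta_bd η hη0
  obtain ⟨n₁, hn₁⟩ := step_prime K hK2
  -- the conditions on `L = log b`
  have hs : Tendsto (fun L : ℝ => √L) atTop atTop := Real.tendsto_sqrt_atTop
  have hlog : ∀ᶠ L : ℝ in atTop, Real.log L ≤ √L / 16 := by
    have h1 := (isLittleO_log_rpow_atTop (show (0 : ℝ) < 1 / 2 by norm_num)).bound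
      (show (0 : ℝ) < 1 / 16 by norm_num)
    filter_upwards [h1, eventually_ge_atTop 1] with L hL hL1
    rw [Real.norm_of_nonneg (Real.log_nonneg hL1), Real.norm_of_nonneg (by positivity),
      ← Real.sqrt_eq_rpow] at hL
    linarith
  have hev := (((hs.eventually_ge_atTop (n₀ + 2 : ℝ)).and (hs.eventually_ge_atTop (4 * (2 * K + 2) / ε + 8))).and
    ((hs.eventually_ge_atTop (16 * Real.log (2 * K) + n₁ + 8)).and hlog)).and (eventually_ge_atTop (1 : ℝ))
  have hev2 := (Real.tendsto_log_atTop.comp (tendsto_natCast_atTop_atTop (R := ℝ))).eventually hev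
  obtain ⟨b₀, hb₀⟩ := eventually_atTop.1 hev2
  refine ⟨max b₀ 3, ?_⟩
  intro b hb T hT
  have hb3 : 3 ≤ b := (le_max_right _ _).trans hb
  obtain ⟨⟨⟨g1, g2⟩, ⟨g3, g4⟩⟩, g5⟩ := hb₀ b ((le_max_left _ _).trans hb)
  simp only [Function.comp] at g1 g2 g3 g4 g5
  obtain ⟨L, hL⟩ : ∃ L, L = Real.log b := ⟨_, rfl⟩
  obtain ⟨s, hsd⟩ : ∃ s, s = √L := ⟨_, rfl⟩
  rw [← hL] at g1 g2 g3 g4 g5
  rw [← hsd] at g1 g2 g3 g4
  have hL0 : 0 ≤ L := by linarith
  have hss : s * s = L := by rw [hsd]; exact Real.mul_self_sqrt hL0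
  have hlogK2 : 0 ≤ Real.log (2 * K) := by
    apply Real.log_nonneg
    have : (2 : ℝ) ≤ K := by exact_mod_cast hK2
    linarith
  have hs8 : 8 ≤ s := by
    have : (0 : ℝ) ≤ n₁ := Nat.cast_nonneg _
    linarith
  have hbp : (0 : ℝ) < b := by exact_mod_cast (by omega : 0 < b)
  -- the steps
  obtain ⟨l₁, a1, a2, a3, a4⟩ := steps b K (2 * K * L) (by
    intro T' hT'
    apply hn₁ b T' (by omega) _ (by rw [← hL]; exact hT')
    have h1 : (n₁ : ℝ) ≤ T' := by
      have h2 : (n₁ : ℝ) ≤ s := by linarith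
      have h3 : s ≤ 2 * K * L := by
        rw [← hss]
        have : (2 : ℝ) ≤ K := by exact_mod_cast hK2
        nlinarith
      linarith
    exact_mod_cast h1) T hT
  obtain ⟨R, hR⟩ : ∃ R, R = T - l₁.sum := ⟨_, rfl⟩
  rw [← hR] at a3
  have hRT : T = l₁.sum + R := by omega
  have hRb : R < b := by omega
  have hl1 : (l₁.length : ℝ) ≤ 1 + ε / 4 * L := by
    rcases a4 with h | h
    · rw [h]
      simp only [List.length_nil, Nat.cast_zero]
      have : 0 ≤ ε / 4 * L := by positivity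
      linarith
    · have h1 : ((K ^ l₁.length : ℕ) : ℝ) ≤ ((K * b : ℕ) : ℝ) := by
        exact_mod_cast h.trans (Nat.mul_le_mul_left _ hT.le)
      push_cast at h1
      have h2 := Real.log_le_log (by positivity) h1
      rw [Real.log_pow, Real.log_mul hK0.ne' hbp.ne', ← hL] at h2
      have h3 : (l₁.length : ℝ) ≤ 1 + L / Real.log K := by
        rw [← sub_le_iff_le_add', le_div_iff₀ hKl0]
        linarith
      have h4 : L / Real.log K ≤ ε / 4 * L := by
        rw [div_le_iff₀ hKl0]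
        have h5 : 1 ≤ ε / 4 * Real.log K := by
          have := mul_le_mul_of_nonneg_left hKlog (show (0 : ℝ) ≤ ε / 4 by positivity)
          have e : ε / 4 * (4 / ε) = 1 := by field_simp
          linarith
        calc L = 1 * L := (one_mul L).symm
          _ ≤ (ε / 4 * Real.log K) * L := mul_le_mul_of_nonneg_right h5 hL0
          _ = ε / 4 * L * Real.log K := by ring
      linarith
  -- the rest
  obtain ⟨P, hPp, hPd, hPb, hPθ⟩ := least_prime b hb3
  have hPc : Nat.Coprime P b := (Nat.Prime.coprime_iff_not_dvd hPp).2 hPd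
  have hP2 := hPp.two_le
  have hrest : ∃ l : List ℕ, Dig b l ∧ l.sum ≤ R ∧ R ≤ l.sum + l.length ∧
      (l.length : ℝ) ≤ L / 2 + ε / 2 * L - 1 := by
    rcases le_or_gt s (P : ℝ) with h | h
    · obtain ⟨l, b1, b2, b3, b4⟩ := rest1 b P (by omega) hPp.one_le hPb hPc R
      refine ⟨l, b1, b2, b3, ?_⟩
      have hP0 : (0 : ℝ) < P := by linarith
      have h1 : ((R / P : ℕ) : ℝ) ≤ 2 * K * s := by
        calc ((R / P : ℕ) : ℝ) ≤ (R : ℝ) / P := Nat.cast_div_le
          _ ≤ (2 * K * L) / s := by gcongr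
          _ = 2 * K * s := by
              rw [← hss]
              field_simp
      have h2 : (2 : ℝ) * l.length ≤ 2 * ((R / P : ℕ) : ℝ) + P := by exact_mod_cast b4
      have h3 : n₀ ≤ P - 1 := by
        have : (n₀ : ℝ) + 2 ≤ P := g1.trans h
        have : n₀ + 2 ≤ P := by exact_mod_cast this
        omega
      have h4 := (hn₀ (P - 1) h3).1.trans hPθ
      rw [← hL, Nat.cast_sub hPp.one_le, Nat.cast_one] at h4
      have h5 : (P : ℝ) - 1 ≤ (1 + 2 * η) * L := by
        have h6 : 1 ≤ (1 + 2 * η) * (1 - η) := by nlinarith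
        calc (P : ℝ) - 1 ≤ (1 + 2 * η) * (1 - η) * (P - 1) := le_mul_of_one_le_left (by linarith) h6
          _ = (1 + 2 * η) * ((1 - η) * (P - 1)) := by ring
          _ ≤ (1 + 2 * η) * L := mul_le_mul_of_nonneg_left h4 (by linarith)
      have h7 : 2 * η * L ≤ ε / 2 * L := by nlinarith
      have h8 : 2 * (2 * K * s) + 3 ≤ ε / 2 * L := by
        have h9 : 4 * (2 * K + 2) / ε ≤ s := by linarith
        rw [div_le_iff₀ hε] at h9
        rw [← hss]
        nlinarith
      linarith
    · have hkR : R < 2 ^ (Nat.log 2 R + 1) := Nat.lt_pow_succ_log_self (by norm_num) R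
      obtain ⟨l, b1, b2, b3⟩ := rest2 b P (by omega) hP2 hPc (Nat.log 2 R + 1) R hkR hRb
      refine ⟨l, b1, b2.le, by omega, ?_⟩
      have h1 : (Nat.log 2 R : ℝ) ≤ 2 * Real.log (2 * K * L) := by
        rcases Nat.eq_zero_or_pos R with h0 | h0
        · rw [h0]
          simp only [Nat.log_zero_right, Nat.cast_zero]
          have : 0 ≤ Real.log (2 * K * L) := by
            apply Real.log_nonneg
            have : (2 : ℝ) ≤ K := by exact_mod_cast hK2
            nlinarith
          linarith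
        · have h2 : 2 ^ (Nat.log 2 R) ≤ R := Nat.pow_log_le_self 2 (by omega)
          have h3 : ((2 : ℝ) ^ (Nat.log 2 R)) ≤ 2 * K * L := le_trans (by exact_mod_cast h2) a3
          have h4 := Real.log_le_log (by positivity) h3
          rw [Real.log_pow] at h4
          have h5 := Real.log_two_gt_d9
          have h6 : (0 : ℝ) ≤ (Nat.log 2 R : ℝ) := Nat.cast_nonneg _
          nlinarith
      have h2 : Real.log (2 * K * L) ≤ s / 8 := by
        rw [Real.log_mul (by positivity) (by linarith)]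
        have : (0 : ℝ) ≤ n₁ := Nat.cast_nonneg _
        linarith
      have h3 : (l.length : ℝ) ≤ P * (Nat.log 2 R + 1) := by exact_mod_cast b3
      have h4 : (P : ℝ) * (Nat.log 2 R + 1) ≤ s * (s / 4 + 1) := by
        apply mul_le_mul h.le _ (by positivity) (by linarith)
        linarith
      have h5 : 0 ≤ ε / 2 * L := by positivity
      have h6 : s * (s / 4 + 1) ≤ L / 2 - 1 := by
        rw [← hss]
        nlinarith
      linarith
  obtain ⟨l₂, c1, c2, c3, c4⟩ := hrest
  refine ⟨l₁ ++ l₂, a1.append c1, ?_, ?_, ?_⟩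
  · rw [List.sum_append]
    omega
  · rw [List.sum_append, List.length_append]
    omega
  · rw [List.length_append, ← hL]
    push_cast
    have : 0 ≤ ε / 4 * L := by positivity
    linarith

end Pool.Agent.H14.RP
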