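import Pool.Agent.H14.RP.Digits
import Pool.Graph.R_seed8.R482.KB.Asm

/-!
# The lower bound for the primorial bases (helper14)
-/

set_option autoImplicit false
set_option linter.unusedSectionVars false
set_option linter.deprecated false

namespace Pool.Agent.H14.RP
open Finset Filter
open Pool.Agent.R482.KB Pool.Agent.R456.RP

/-- the reversed primes in a base divisible by all the primes up to `y` -/
lemma rev_gap (b y : ℕ) (hb : 3 ≤ b) (hyb : y < b) (hy : ∀ p : ℕ, p.Prime → (p ∣ b ↔ p ≤ y)) (L r : ℕ)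
    (hL : 2 ≤ L) (hr : IsRev b r) (hlt : r < (y + 1) * b ^ (L - 1)) : r < 2 * b ^ (L - 1) := by
  obtain ⟨p, hp, rfl⟩ := hr
  have hb0 : 0 < b := by omega
  have hb1 : 1 < b := by omega
  have hp0 : p ≠ 0 := hp.ne_zero
  obtain ⟨n, hn⟩ : ∃ n, n = Nat.log b p := ⟨_, rfl⟩
  have h1 : b ^ n ≤ p := by rw [hn]; exact Nat.pow_log_le_self b hp0
  have h2 : p < b ^ (n + 1) := by rw [hn]; exact Nat.lt_pow_succ_log_self hb1 p
  have hrev : Nat.ofDigits b (Nat.digits b p).reverse = rev b (n + 1) p :=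
    rev_eq b (n + 1) p (by omega) (by simpa using h1) h2 (by omega)
  rw [hrev] at hlt ⊢
  have hlow : rev b (n + 1) p = p % b * b ^ n + rev b n (p / b) := by
    have h4 := rev_low b n hb0 (p / b) (p % b) (Nat.mod_lt _ hb0)
    rw [Nat.mul_comm (p / b) b, Nat.div_add_mod] at h4
    exact h4
  have hrest : rev b n (p / b) < b ^ n := by
    apply rev_lt b n hb0
    apply Nat.div_lt_of_lt_mul
    calc p < b ^ (n + 1) := h2
      _ = b * b ^ n := by rw [pow_succ']
  have hB0 : 0 < b ^ (L - 1) := by positivity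
  rcases Nat.lt_or_ge (n + 1) L with hnL | hnL
  · have h5 := rev_lt b (n + 1) hb0 p h2
    have h6 : b ^ (n + 1) ≤ b ^ (L - 1) := Nat.pow_le_pow_right hb0 (by omega)
    omega
  · -- the last digit of `p`
    have hn1 : 1 ≤ n := by omega
    have hbp : b ≤ p := by
      calc b = b ^ 1 := (pow_one b).symm
        _ ≤ b ^ n := Nat.pow_le_pow_right hb0 hn1
        _ ≤ p := h1
    have hpb : ¬ p ∣ b := by
      intro h
      have := (hy p hp).1 h
      omega
    have hcop : Nat.Coprime (p % b) b := by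
      have h5 : Nat.Coprime p b := (Nat.Prime.coprime_iff_not_dvd hp).2 hpb
      rw [Nat.Coprime] at h5 ⊢
      rw [← Nat.gcd_rec, Nat.gcd_comm]
      exact h5
    obtain ⟨d, hd⟩ : ∃ d, d = p % b := ⟨_, rfl⟩
    rw [← hd] at hcop hlow
    have hd0 : 1 ≤ d := by
      rcases Nat.eq_zero_or_pos d with h | h
      · rw [h, Nat.coprime_zero_left] at hcop
        omega
      · exact h
    have hnL2 : n + 1 = L := by
      by_contra hne
      have h5 : L ≤ n := by omega
      have h6 : b ^ L ≤ b ^ n := Nat.pow_le_pow_right hb0 h5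
      have h7 : b ^ L = b * b ^ (L - 1) := by
        rw [← pow_succ']
        congr 1
        omega
      have h8 : (y + 1) * b ^ (L - 1) ≤ b * b ^ (L - 1) := Nat.mul_le_mul_right _ hyb
      have h9 : 1 * b ^ n ≤ d * b ^ n := Nat.mul_le_mul_right _ hd0
      omega
    have hnL3 : n = L - 1 := by omega
    rw [hnL3] at hlow hrest
    rw [hnL3]
    have hd1 : d = 1 := by
      by_contra hne
      obtain ⟨q, hq1, hq2⟩ := Nat.exists_prime_and_dvd hne
      have h5 : ¬ q ∣ b := by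
        intro h6
        have h7 := Nat.dvd_gcd hq2 h6
        rw [hcop] at h7
        exact hq1.one_lt.ne' (Nat.dvd_one.1 h7)
      have h6 : y < q := by
        by_contra h7
        exact h5 ((hy q hq1).2 (by omega))
      have h7 : q ≤ d := Nat.le_of_dvd hd0 hq2
      have h8 : (y + 1) * b ^ (L - 1) ≤ d * b ^ (L - 1) := Nat.mul_le_mul_right _ (by omega)
      rw [hnL3] at hlt
      omega
    rw [hlow, hd1]
    omega

/-- the order is at least `(y + 1) / 2` -/
lemma lower_one (b y : ℕ) (hb : 3 ≤ b) (hyb : y < b) (hy : ∀ p : ℕ, p.Prime → (p ∣ b ↔ p ≤ y)) (K : ℕ)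
    (hK : Cov b K) : y + 1 ≤ 2 * K := by
  obtain ⟨N₀, hN⟩ := hK
  obtain ⟨L, hL⟩ : ∃ L, L = N₀ + 2 := ⟨_, rfl⟩
  obtain ⟨B, hB⟩ : ∃ B, B = b ^ (L - 1) := ⟨_, rfl⟩
  have hBN : N₀ < B := by
    rw [hB, hL]
    have h1 : N₀ < b ^ N₀ := Nat.lt_pow_self (by omega)
    have h2 : b ^ N₀ ≤ b ^ (N₀ + 2 - 1) := Nat.pow_le_pow_right (by omega) (by omega)
    omega
  have hle : B ≤ (y + 1) * B := Nat.le_mul_of_pos_left _ (by omega)
  obtain ⟨l, h1, h2, h3⟩ := hN ((y + 1) * B - 1) (by omega)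
  by_contra hcon
  have h4 : ∀ r ∈ l, r ≤ 2 * B - 1 := by
    intro r hr
    have h5 : r ≤ l.sum := List.le_sum_of_mem hr
    have h6 := rev_gap b y hb hyb hy L r (by omega) (h2 r hr) (by rw [← hB]; omega)
    rw [← hB] at h6
    omega
  have h5 : l.sum ≤ l.length * (2 * B - 1) := by
    have := List.sum_le_card_nsmul l (2 * B - 1) h4
    simpa using this
  have h6 : l.length * (2 * B - 1) ≤ K * (2 * B - 1) := Nat.mul_le_mul_right _ h1
  have h7 : K * (2 * B - 1) ≤ K * (2 * B) := Nat.mul_le_mul_left _ (Nat.sub_le _ _)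
  have h8 : K * (2 * B) = (2 * K) * B := by ring
  have h9 : (2 * K) * B ≤ y * B := Nat.mul_le_mul_right _ (by omega)
  have h10 : (y + 1) * B = y * B + B := by ring
  have hB1 : 1 ≤ B := by omega
  rcases Nat.eq_or_lt_of_le hB1 with h11 | h11
  · -- `B = 1` is impossible
    have h12 : 1 < b ^ (L - 1) := Nat.one_lt_pow (by omega) (by omega)
    omega
  · omega

/-- **The lower bound.** -/
theorem lower (ε : ℝ) (hε : 0 < ε) : ∃ y₀ : ℕ, ∀ y : ℕ, y₀ ≤ y → y < primorial y ∧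
    ∀ K : ℕ, Cov (primorial y) K → (1 / 2 - ε) * Real.log (primorial y) ≤ K := by
  obtain ⟨η, hη⟩ : ∃ η : ℝ, η = min ε (1 / 2) := ⟨_, rfl⟩
  have hη0 : 0 < η := by rw [hη]; positivity
  have hη1 : η ≤ ε := by rw [hη]; exact min_le_left _ _
  have hη2 : η ≤ 1 / 2 := by rw [hη]; exact min_le_right _ _
  obtain ⟨n₀, hn₀⟩ := theta_bd η hη0
  refine ⟨n₀ + 3, fun y hy => ?_⟩
  obtain ⟨b, hb⟩ : ∃ b, b = primorial y := ⟨_, rfl⟩
  have hlog : Chebyshev.theta y = Real.log b := by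
    rw [Chebyshev.theta_eq_log_primorial, Nat.floor_natCast, hb]
  have hbpos : 0 < b := by rw [hb]; exact primorial_pos y
  have hyp : ∀ p : ℕ, p.Prime → (p ∣ b ↔ p ≤ y) := by
    intro p hp
    rw [hb]
    exact Nat.Prime.dvd_primorial_iff hp
  have hb3 : 3 ≤ b := Nat.le_of_dvd hbpos ((hyp 3 Nat.prime_three).2 (by omega))
  have hyb : y < b := by
    obtain ⟨q, hq1, hq2⟩ := Nat.exists_prime_and_dvd (show b - 1 ≠ 1 by omega)
    have h1 : q ≤ b - 1 := Nat.le_of_dvd (by omega) hq2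
    have h2 : ¬ q ∣ b := by
      intro h3
      have h4 : q ∣ b - (b - 1) := Nat.dvd_sub h3 hq2
      have h5 : b - (b - 1) = 1 := by omega
      rw [h5] at h4
      exact hq1.one_lt.ne' (Nat.dvd_one.1 h4)
    have h3 : ¬ q ≤ y := fun h => h2 ((hyp q hq1).2 h)
    omega
  rw [← hb]
  refine ⟨hyb, ?_⟩
  intro K hK
  have h1 := lower_one b y hb3 hyb hyp K hK
  have h2 := (hn₀ y (by omega)).2
  rw [hlog] at h2
  have h3 : (y : ℝ) + 1 ≤ 2 * K := by exact_mod_cast h1
  have hL0 : 0 ≤ Real.log b := Real.log_natCast_nonneg b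
  have hy0 : (0 : ℝ) ≤ y := Nat.cast_nonneg _
  have h4 : (1 / 2 - ε) * Real.log b ≤ (1 / 2 - η) * Real.log b :=
    mul_le_mul_of_nonneg_right (by linarith) hL0
  have h5 : (1 / 2 - η) * Real.log b ≤ (1 / 2 - η) * ((1 + η) * y) :=
    mul_le_mul_of_nonneg_left h2 (by linarith)
  have h6 : (1 / 2 - η) * ((1 + η) * y) ≤ y / 2 := by
    have h7 : (1 / 2 - η) * (1 + η) ≤ 1 / 2 := by nlinarith
    calc (1 / 2 - η) * ((1 + η) * y) = (1 / 2 - η) * (1 + η) * y := by ring
      _ ≤ 1 / 2 * y := mul_le_mul_of_nonneg_right h7 hy0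
      _ = y / 2 := by ring
  linarith

end Pool.Agent.H14.RP
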