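import Pool.Agent.H14.RP.Upper
import Pool.Agent.H14.RP.Lower
import Pool.Graph.R_seed8.R482.KB.S1
import Pool.Graph.R_seed8.R482.KB.S2
import Pool.Graph.R_seed8.R482.KB.S3

/-!
# The order in one base and the digits coprime to the base (helper14)
-/

set_option autoImplicit false
set_option linter.unusedSectionVars false
set_option linter.deprecated false

namespace Pool.Agent.H14.RP
open Finset Filter
open Pool.Agent.R482.KB Pool.Agent.R456.RP

/-- every digit `t` is reached by at most `K` digits coprime to the base, and at most `K - 1` carries -/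
def DC (b K : ℕ) : Prop := ∀ t : ℕ, t < b → ∃ l : List ℕ, l.length ≤ K ∧
  (∀ a ∈ l, 1 ≤ a ∧ a < b ∧ Nat.Coprime a b) ∧ l.sum ≤ t ∧ t < l.sum + K

/-- the leading digit of a reversed prime -/
lemma rev_lead (b : ℕ) (hb : 2 ≤ b) (L r : ℕ) (hL : 3 ≤ L) (hr : IsRev b r) (hlt : r < b * b ^ (L - 1)) :
    ∃ d : ℕ, (d = 0 ∨ (1 ≤ d ∧ d < b ∧ Nat.Coprime d b)) ∧ d * b ^ (L - 1) ≤ r ∧
      r + 1 ≤ (d + 1) * b ^ (L - 1) := by
  obtain ⟨p, hp, rfl⟩ := hr
  have hb0 : 0 < b := by omega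
  have hb1 : 1 < b := by omega
  have hp0 : p ≠ 0 := hp.ne_zero
  obtain ⟨n, hn⟩ : ∃ n, n = Nat.log b p := ⟨_, rfl⟩
  have h1 : b ^ n ≤ p := by rw [hn]; exact Nat.pow_log_le_self b hp0
  have h2 : p < b ^ (n + 1) := by rw [hn]; exact Nat.lt_pow_succ_log_self hb1 p
  have hrev : Nat.ofDigits b (Nat.digits b p).reverse = rev b (n + 1) p :=
    rev_eq b (n + 1) p (by omega) (by simpa using h1) h2 (by omega)
  rw [hrev] at hlt ⊢
  have hlow : rev b (n + 1) p = p % b * b ^ n + rev b n (p / b) := by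
    have h4 := rev_low b n hb0 (p / b) (p % b) (Nat.mod_lt _ hb0)
    rw [Nat.mul_comm (p / b) b, Nat.div_add_mod] at h4
    exact h4
  have hrest : rev b n (p / b) < b ^ n := by
    apply rev_lt b n hb0
    apply Nat.div_lt_of_lt_mul
    calc p < b ^ (n + 1) := h2
      _ = b * b ^ n := by rw [pow_succ']
  have hB0 : 0 < b ^ (L - 1) := by positivity
  rcases Nat.lt_or_ge (n + 1) L with hnL | hnL
  · refine ⟨0, Or.inl rfl, by simp, ?_⟩
    have h5 := rev_lt b (n + 1) hb0 p h2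
    have h6 : b ^ (n + 1) ≤ b ^ (L - 1) := Nat.pow_le_pow_right hb0 (by omega)
    omega
  · have hbp : b < p := by
      have h3 : b ^ 2 ≤ b ^ n := Nat.pow_le_pow_right hb0 (by omega)
      have h4 : b < b ^ 2 := by nlinarith
      omega
    have hpb : ¬ p ∣ b := by
      intro h
      have := Nat.le_of_dvd hb0 h
      omega
    have hcop : Nat.Coprime (p % b) b := by
      have h5 : Nat.Coprime p b := (Nat.Prime.coprime_iff_not_dvd hp).2 hpb
      rw [Nat.Coprime] at h5 ⊢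
      rw [← Nat.gcd_rec, Nat.gcd_comm]
      exact h5
    obtain ⟨d, hd⟩ : ∃ d, d = p % b := ⟨_, rfl⟩
    have hdb : d < b := by rw [hd]; exact Nat.mod_lt _ hb0
    rw [← hd] at hcop hlow
    have hd0 : 1 ≤ d := by
      rcases Nat.eq_zero_or_pos d with h | h
      · rw [h, Nat.coprime_zero_left] at hcop
        omega
      · exact h
    have hnL2 : n + 1 = L := by
      by_contra hne
      have h5 : L ≤ n := by omega
      have h6 : b ^ L ≤ b ^ n := Nat.pow_le_pow_right hb0 h5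
      have h7 : b ^ L = b * b ^ (L - 1) := by
        rw [← pow_succ']
        congr 1
        omega
      have h9 : 1 * b ^ n ≤ d * b ^ n := Nat.mul_le_mul_right _ hd0
      omega
    have hnL3 : n = L - 1 := by omega
    rw [hnL3] at hlow hrest
    rw [hnL3]
    refine ⟨d, Or.inr ⟨hd0, hdb, hcop⟩, ?_, ?_⟩
    · rw [hlow]
      omega
    · rw [hlow]
      have : (d + 1) * b ^ (L - 1) = d * b ^ (L - 1) + b ^ (L - 1) := by ring
      omega

/-- the leading digits of a sum of reversed primes -/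
lemma leads (b : ℕ) (hb : 2 ≤ b) (L : ℕ) (hL : 3 ≤ L) (l : List ℕ) (hl : ∀ r ∈ l, IsRev b r)
    (hlt : ∀ r ∈ l, r < b * b ^ (L - 1)) :
    ∃ l' : List ℕ, l'.length ≤ l.length ∧ (∀ a ∈ l', 1 ≤ a ∧ a < b ∧ Nat.Coprime a b) ∧
      l'.sum * b ^ (L - 1) ≤ l.sum ∧ l.sum + l.length ≤ (l'.sum + l.length) * b ^ (L - 1) := by
  induction l with
  | nil => exact ⟨[], by simp, by simp, by simp, by simp⟩
  | cons r l ih =>
    obtain ⟨l', h1, h2, h3, h4⟩ := ih (fun r hr => hl r (List.mem_cons_of_mem _ hr))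
      (fun r hr => hlt r (List.mem_cons_of_mem _ hr))
    obtain ⟨d, hd, h5, h6⟩ := rev_lead b hb L r hL (hl r List.mem_cons_self) (hlt r List.mem_cons_self)
    have e1 : ∀ B : ℕ, (d + l'.sum) * B = d * B + l'.sum * B := fun B => by ring
    have e2 : ∀ B : ℕ, (d + l'.sum + (l.length + 1)) * B = (d + 1) * B + (l'.sum + l.length) * B :=
      fun B => by ring
    rcases hd with hd | hd
    · refine ⟨l', ?_, h2, ?_, ?_⟩
      · rw [List.length_cons]
        omega
      · rw [List.sum_cons]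
        omega
      · rw [List.sum_cons, List.length_cons]
        have e3 := e2 (b ^ (L - 1))
        rw [hd, Nat.zero_add] at e3
        rw [hd] at h6
        omega
    · refine ⟨d :: l', ?_, ?_, ?_, ?_⟩
      · rw [List.length_cons, List.length_cons]
        omega
      · intro a ha
        rcases List.mem_cons.1 ha with h | h
        · rw [h]
          exact hd
        · exact h2 a h
      · rw [List.sum_cons, List.sum_cons, e1]
        omega
      · rw [List.sum_cons, List.sum_cons, List.length_cons, e2]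
        omega

/-- **The lower bound in every base.** -/
theorem cov_digit (b K : ℕ) (hb : 2 ≤ b) (hK : Cov b K) : DC b K := by
  intro t ht
  obtain ⟨N₀, hN⟩ := hK
  obtain ⟨L, hL⟩ : ∃ L, L = N₀ + 3 := ⟨_, rfl⟩
  obtain ⟨B, hB⟩ : ∃ B, B = b ^ (L - 1) := ⟨_, rfl⟩
  have hBN : N₀ + 2 ≤ B := by
    rw [hB, hL]
    have h1 : N₀ + 2 < b ^ (N₀ + 2) := Nat.lt_pow_self (by omega)
    have h2 : N₀ + 3 - 1 = N₀ + 2 := by omega
    rw [h2]
    omega
  have hle : B ≤ (t + 1) * B := Nat.le_mul_of_pos_left _ (by omega)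
  obtain ⟨l, h1, h2, h3⟩ := hN ((t + 1) * B - 1) (by omega)
  have hbB : (t + 1) * B ≤ b * B := Nat.mul_le_mul_right _ ht
  obtain ⟨l', g1, g2, g3, g4⟩ := leads b hb L (by omega) l h2 (by
    intro r hr
    have h5 : r ≤ l.sum := List.le_sum_of_mem hr
    rw [← hB]
    omega)
  rw [← hB] at g3 g4
  have hl1 : 1 ≤ l.length := by
    rcases Nat.eq_zero_or_pos l.length with h | h
    · have : l = [] := List.length_eq_zero_iff.1 h
      rw [this] at h3
      simp at h3
      omega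
    · exact h
  refine ⟨l', g1.trans h1, g2, ?_, ?_⟩
  · have h6 : l'.sum * B < (t + 1) * B := by omega
    have h7 := Nat.lt_of_mul_lt_mul_right h6
    omega
  · have h6 : (t + 1) * B ≤ (l'.sum + l.length) * B := by omega
    have h7 := Nat.le_of_mul_le_mul_right h6 (by omega)
    omega

/-- the digits: filling with ones -/
lemma DC.fill {b K : ℕ} (hb : 2 ≤ b) (h : DC b K) (t : ℕ) (ht : t < b) :
    ∃ l : List ℕ, l.length ≤ K ∧ (∀ a ∈ l, 1 ≤ a ∧ a < b ∧ Nat.Coprime a b) ∧ l.sum ≤ t ∧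
      t ≤ l.sum + l.length := by
  obtain ⟨l, h1, h2, h3, h4⟩ := h t ht
  refine ⟨List.replicate ((t - l.sum - l.length + 1) / 2) 1 ++ l, ?_, ?_, ?_, ?_⟩
  · rw [List.length_append, List.length_replicate]
    omega
  · intro a ha
    rw [List.mem_append] at ha
    rcases ha with ha | ha
    · rw [List.eq_of_mem_replicate ha]
      exact ⟨le_rfl, by omega, Nat.coprime_one_left b⟩
    · exact h2 a ha
  · rw [List.sum_append, List.sum_replicate, smul_eq_mul]
    omega
  · rw [List.sum_append, List.sum_replicate, smul_eq_mul, List.length_append, List.length_replicate]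
    omega

/-- the digit bound in every large base -/
lemma dc_small (ε : ℝ) (hε : 0 < ε) : ∃ b₀ : ℕ, ∀ b : ℕ, b₀ ≤ b →
    ∃ K : ℕ, DC b K ∧ (K : ℝ) ≤ (1 / 2 + ε) * Real.log b + 1 := by
  obtain ⟨b₀, h⟩ := digits ε hε
  refine ⟨b₀, fun b hb => ⟨⌊(1 / 2 + ε) * Real.log b⌋₊ + 1, ?_, ?_⟩⟩
  · intro t ht
    obtain ⟨l, h1, h2, h3, h4⟩ := h b hb t ht
    have h5 := Nat.le_floor h4
    exact ⟨l, by omega, h1, h2, by omega⟩
  · have hL0 : 0 ≤ Real.log b := Real.log_natCast_nonneg b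
    have := Nat.floor_le (show 0 ≤ (1 / 2 + ε) * Real.log b by positivity)
    push_cast
    linarith

/-- **The upper bound in every base.** -/
theorem exact_upper : ∃ C : ℝ, 0 < C ∧ ∀ b : ℕ, 2 ≤ b → ∀ E : ℕ, DC b E →
    ∃ K : ℕ, 2 ≤ K ∧ (K : ℝ) ≤ E + C * Fi b ^ 4 ∧ Cov b K := by
  obtain ⟨b₁, hdig⟩ := dc_small (1 / 2) (by positivity)
  obtain ⟨b₂, hfi⟩ := fi_small (1 / (4 * 18 * 5 * 66 ^ 4)) (by positivity)
  have hlog : Tendsto (fun b : ℕ => Real.log b) atTop atTop :=
    Real.tendsto_log_atTop.comp tendsto_natCast_atTop_atTop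
  have hev1 : ∀ᶠ b : ℕ in atTop, (8 * Real.log b) ^ 8 ≤ b := by
    have h1 := (Real.isLittleO_pow_log_id_atTop (n := 8)).bound
      (show (0 : ℝ) < 1 / 8 ^ 8 by positivity)
    have h2 := (tendsto_natCast_atTop_atTop (R := ℝ)).eventually h1
    filter_upwards [h2, eventually_ge_atTop 1] with b hb hb1
    have h3 : (0 : ℝ) ≤ Real.log b := Real.log_natCast_nonneg b
    simp only [id, Real.norm_eq_abs] at hb
    rw [abs_of_nonneg (by positivity), abs_of_nonneg (by positivity)] at hb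
    rw [mul_pow]
    have h4 := mul_le_mul_of_nonneg_left hb (show (0 : ℝ) ≤ 8 ^ 8 by positivity)
    calc (8 : ℝ) ^ 8 * Real.log b ^ 8 ≤ 8 ^ 8 * (1 / 8 ^ 8 * b) := h4
      _ = b := by ring
  have hev2 : ∀ᶠ b : ℕ in atTop, 4 * Real.log b ≤ b := by
    have h1 := (Real.isLittleO_pow_log_id_atTop (n := 1)).bound
      (show (0 : ℝ) < 1 / 4 by positivity)
    have h2 := (tendsto_natCast_atTop_atTop (R := ℝ)).eventually h1
    filter_upwards [h2, eventually_ge_atTop 1] with b hb hb1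
    have h3 : (0 : ℝ) ≤ Real.log b := Real.log_natCast_nonneg b
    simp only [id, Real.norm_eq_abs, pow_one] at hb
    rw [abs_of_nonneg h3, abs_of_nonneg (by positivity)] at hb
    linarith
  obtain ⟨b₃, hb₃⟩ := eventually_atTop.1 ((hev1.and hev2).and
    ((hlog.eventually_ge_atTop 100).and (eventually_ge_atTop 8)))
  obtain ⟨C₀, hC₀, hall⟩ := all_bases primesWithDigits covering digitSums totientBound
  obtain ⟨b₄, hb₄⟩ : ∃ b₄, b₄ = max b₁ (max b₂ b₃) := ⟨_, rfl⟩
  refine ⟨max (18 * (5 * 66 ^ 4) + 22) (C₀ * Real.log (b₄ + 1)), lt_max_of_lt_left (by positivity), ?_⟩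
  intro b hb2 E hE
  have hFi1 := one_le_Fi b hb2
  have hFi4 : 1 ≤ Fi b ^ 4 := one_le_pow₀ hFi1
  rcases Nat.lt_or_ge b b₄ with hbb | hbb
  · -- the small bases
    obtain ⟨K, h1, h2, h3⟩ := hall b hb2
    refine ⟨K, h1, h2.trans ?_, h3⟩
    have h4 : Real.log b ≤ Real.log (b₄ + 1) := by
      apply Real.log_le_log (by exact_mod_cast (by omega : 0 < b))
      have : (b : ℝ) ≤ b₄ := by exact_mod_cast hbb.le
      linarith
    have h5 : C₀ * Real.log b ≤ C₀ * Real.log (b₄ + 1) := mul_le_mul_of_nonneg_left h4 hC₀.le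
    have h6 : 0 ≤ C₀ * Real.log (b₄ + 1) := by
      apply mul_nonneg hC₀.le
      apply Real.log_nonneg
      have : (0 : ℝ) ≤ b₄ := Nat.cast_nonneg _
      linarith
    have h7 : C₀ * Real.log (b₄ + 1) ≤ max (18 * (5 * 66 ^ 4) + 22) (C₀ * Real.log (b₄ + 1)) := le_max_right _ _
    have h8 : (0 : ℝ) ≤ E := Nat.cast_nonneg _
    nlinarith
  · -- the large bases
    have hbb1 : b₁ ≤ b := by omega
    have hbb2 : b₂ ≤ b := by omega
    obtain ⟨⟨g1, g2⟩, ⟨g3, h8⟩⟩ := hb₃ b (by omega)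
    obtain ⟨E₁, hE₁, hE₁'⟩ := hdig b hbb1
    obtain ⟨E', hE'1, hE'2, hE'3⟩ : ∃ E' : ℕ, DC b E' ∧ E' ≤ E ∧ E' ≤ E₁ := by
      rcases Nat.le_total E E₁ with h | h
      · exact ⟨E, hE, le_rfl, h⟩
      · exact ⟨E₁, hE₁, h, le_rfl⟩
    have hbr : (8 : ℝ) ≤ b := by exact_mod_cast h8
    have hbp : (0 : ℝ) < b := by linarith
    have hrho : (rho b / b) ^ 8 ≤ b := by
      refine le_trans ?_ g1
      apply pow_le_pow_left₀ (div_nonneg (rho_nonneg b) hbp.le)
      rw [div_le_iff₀ hbp]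
      refine (rho_le b hb2).trans ?_
      nlinarith
    obtain ⟨h, hh⟩ : ∃ h : ℕ, h = ⌈5 * (66 * Fi b) ^ 4⌉₊ := ⟨_, rfl⟩
    have hh1 : 5 * (66 * Fi b) ^ 4 ≤ h := by rw [hh]; exact Nat.le_ceil _
    have h5 : (h : ℝ) < 5 * (66 * Fi b) ^ 4 + 1 := by
      rw [hh]
      exact Nat.ceil_lt_add_one (by positivity)
    have h5' : (h : ℝ) ≤ 5 * 66 ^ 4 * Fi b ^ 4 + 1 := by
      have : 5 * (66 * Fi b) ^ 4 = 5 * 66 ^ 4 * Fi b ^ 4 := by ring
      linarith
    obtain ⟨m, hm⟩ : ∃ m : ℕ, m = 2 * (6 * h + 1) + E' := ⟨_, rfl⟩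
    have hmb : 2 * m ≤ b := by
      have h6 := hfi b hbb2
      have h7 : (18 : ℝ) * (5 * 66 ^ 4 * Fi b ^ 4) ≤ 1 / 4 * Real.log b := by
        calc (18 : ℝ) * (5 * 66 ^ 4 * Fi b ^ 4) = 18 * 5 * 66 ^ 4 * Fi b ^ 4 := by ring
          _ ≤ 18 * 5 * 66 ^ 4 * (1 / (4 * 18 * 5 * 66 ^ 4) * Real.log b) :=
              mul_le_mul_of_nonneg_left h6 (by positivity)
          _ = 1 / 4 * Real.log b := by ring
      have hE'4 : (E' : ℝ) ≤ E₁ := by exact_mod_cast hE'3
      have h9 : (2 : ℝ) * m ≤ b := by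
        rw [hm]
        push_cast
        linarith
      exact_mod_cast h9
    have hcov := one_base2 b h8 hrho h hh1 m (by
      intro t ht
      obtain ⟨q, hq⟩ : ∃ q, q = t / (b - 1) := ⟨_, rfl⟩
      obtain ⟨r, hr⟩ : ∃ r, r = t % (b - 1) := ⟨_, rfl⟩
      have hrb : r < b - 1 := by rw [hr]; exact Nat.mod_lt _ (by omega)
      have hqr : q * (b - 1) + r = t := by
        rw [hq, hr, Nat.mul_comm]
        exact Nat.div_add_mod t (b - 1)
      have hq2 : q ≤ 2 * (6 * h + 1) := by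
        rw [hq]
        apply Nat.div_le_of_le_mul
        refine ht.trans ?_
        calc (6 * h + 1) * b ≤ (6 * h + 1) * ((b - 1) * 2) := Nat.mul_le_mul_left _ (by omega)
          _ = (b - 1) * (2 * (6 * h + 1)) := by ring
      obtain ⟨l, d4, d1, d2, d3⟩ := hE'1.fill hb2 r (by omega)
      refine ⟨List.replicate q (b - 1) ++ l, ?_, ?_, ?_, ?_⟩
      · rw [List.length_append, List.length_replicate]
        omega
      · intro a ha
        rw [List.mem_append] at ha
        rcases ha with ha | ha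
        · rw [List.eq_of_mem_replicate ha]
          refine ⟨by omega, by omega, ?_⟩
          have h1 : Nat.Coprime (b - 1) ((b - 1) + 1) := by
            rw [Nat.coprime_self_add_right]
            exact Nat.coprime_one_right _
          rwa [Nat.sub_add_cancel (by omega)] at h1
        · exact d1 a ha
      · rw [List.sum_append, List.sum_replicate, smul_eq_mul]
        omega
      · rw [List.sum_append, List.sum_replicate, smul_eq_mul, List.length_append, List.length_replicate]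
        omega) hmb
    obtain ⟨N₀, hN₀⟩ := hcov
    refine ⟨6 * h + m + 2, by omega, ?_, ⟨N₀, fun N hN => ?_⟩⟩
    · have hE'5 : (E' : ℝ) ≤ E := by exact_mod_cast hE'2
      have h6 : (18 * (5 * 66 ^ 4) + 22) * Fi b ^ 4 ≤
          max (18 * (5 * 66 ^ 4) + 22) (C₀ * Real.log (b₄ + 1)) * Fi b ^ 4 :=
        mul_le_mul_of_nonneg_right (le_max_left _ _) (by positivity)
      rw [hm]
      push_cast
      nlinarith
    · obtain ⟨l, h1, h2, h3⟩ := hN₀ N hN
      exact ⟨l, by omega, h2, h3⟩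

end Pool.Agent.H14.RP
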