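import Pool.Graph.R_seed8.R482.KB.S4
import Pool.Graph.R_seed8.R482.KB.Dense

/-!
# The totient factor is at most a constant times `log log b` (helper14)
-/

set_option autoImplicit false
set_option linter.unusedSectionVars false
set_option linter.deprecated false

namespace Pool.Agent.H14.RP
open Finset Filter
open Pool.Agent.R482.KB Pool.Agent.R456.RP

/-- telescoping -/
lemma tele (n : ℕ) : ∑ i ∈ range n, (1 : ℝ) / (((i : ℕ) : ℝ) + 2) / ((i : ℕ) + 1 : ℝ) = 1 - 1 / (n + 1) := by
  induction n with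
  | zero => norm_num
  | succ n ih =>
    rw [sum_range_succ, ih]
    push_cast
    have h1 : (n : ℝ) + 1 ≠ 0 := by positivity
    have h2 : (n : ℝ) + 2 ≠ 0 := by positivity
    have h3 : (n : ℝ) + 1 + 1 ≠ 0 := by positivity
    field_simp
    ring

lemma sum_pp (s : Finset ℕ) (hs : ∀ p ∈ s, 2 ≤ p) : ∑ p ∈ s, (1 : ℝ) / (p * (p - 1)) ≤ 1 := by
  classical
  obtain ⟨n, hn⟩ : ∃ n, n = s.sup id + 1 := ⟨_, rfl⟩
  have h1 : ∑ p ∈ s, (1 : ℝ) / (p * (p - 1)) = ∑ i ∈ s.image (fun p : ℕ => p - 2), (1 : ℝ) / (((i : ℕ) : ℝ) + 2) / ((i : ℕ) + 1 : ℝ) := by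
    rw [sum_image]
    · apply sum_congr rfl
      intro p hp
      have := hs p hp
      rw [Nat.cast_sub this, div_div]
      push_cast
      congr 1
      ring
    · intro p hp q hq h
      have h1 := hs p hp
      have h2 := hs q hq
      simp only at h
      omega
  rw [h1]
  calc ∑ i ∈ s.image (fun p : ℕ => p - 2), (1 : ℝ) / (((i : ℕ) : ℝ) + 2) / ((i : ℕ) + 1 : ℝ)
      ≤ ∑ i ∈ range n, (1 : ℝ) / (((i : ℕ) : ℝ) + 2) / ((i : ℕ) + 1 : ℝ) := by
        apply sum_le_sum_of_subset_of_nonneg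
        · intro i hi
          obtain ⟨p, hp, rfl⟩ := mem_image.1 hi
          have : p ≤ s.sup id := le_sup (f := id) hp
          rw [mem_range, hn]
          omega
        · intro i _ _
          positivity
    _ = 1 - 1 / (n + 1) := tele n
    _ ≤ 1 := by
        have : (0 : ℝ) ≤ 1 / (n + 1) := by positivity
        linarith

/-- the ratio `q / φ(q)` -/
lemma ratio_le1 : ∃ C : ℝ, 0 < C ∧ ∀ q : ℕ, 1 ≤ q → ∀ K : ℕ, 3 ≤ K → q.primeFactors.card ≤ K →
    (q : ℝ) / (Nat.totient q : ℝ) ≤ C * Real.log K := by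
  classical
  obtain ⟨C₀, hC₀⟩ := Pool.Agent.Erdos456.Mert.mertens_inv
  refine ⟨Real.exp (C₀ + 2), Real.exp_pos _, fun q hq K hK hcard => ?_⟩
  have hK0 : (0 : ℝ) < K := by exact_mod_cast (by omega : 0 < K)
  have hlogK : 0 < Real.log K := Real.log_pos (by exact_mod_cast (by omega : 1 < K))
  have h1 : ∑ p ∈ q.primeFactors, (1 : ℝ) / p ≤ Real.log (Real.log K) + C₀ + 1 := by
    rw [← sum_filter_add_sum_filter_not q.primeFactors (fun p => p ≤ K)]
    have e1 : ∑ p ∈ q.primeFactors.filter (fun p => p ≤ K), (1 : ℝ) / p ≤ ∑ p ∈ (Icc 1 K).filter Nat.Prime, (1 : ℝ) / p := by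
      apply sum_le_sum_of_subset_of_nonneg
      · intro p hp
        rw [mem_filter] at hp
        have := Nat.prime_of_mem_primeFactors hp.1
        rw [mem_filter, mem_Icc]
        exact ⟨⟨this.one_le, hp.2⟩, this⟩
      · intro p _ _
        positivity
    have e2 := (abs_le.1 (hC₀ K hK)).2
    have e3 : ∑ p ∈ q.primeFactors.filter (fun p => ¬ p ≤ K), (1 : ℝ) / p ≤ 1 := by
      calc ∑ p ∈ q.primeFactors.filter (fun p => ¬ p ≤ K), (1 : ℝ) / p
          ≤ ∑ _p ∈ q.primeFactors.filter (fun p => ¬ p ≤ K), (1 : ℝ) / K := by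
            apply sum_le_sum
            intro p hp
            rw [mem_filter] at hp
            apply one_div_le_one_div_of_le hK0
            have : K ≤ p := by omega
            exact_mod_cast this
        _ = ((q.primeFactors.filter (fun p => ¬ p ≤ K)).card : ℝ) * (1 / K) := by rw [sum_const, nsmul_eq_mul]
        _ ≤ K * (1 / K) := by
            apply mul_le_mul_of_nonneg_right _ (by positivity)
            exact_mod_cast (card_filter_le _ _).trans hcard
        _ = 1 := by field_simp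
    linarith
  have h2 : ∑ p ∈ q.primeFactors, (1 : ℝ) / (p * (p - 1)) ≤ 1 :=
    sum_pp _ fun p hp => (Nat.prime_of_mem_primeFactors hp).two_le
  rw [ratio_prod q (by omega)]
  calc ∏ p ∈ q.primeFactors, ((p:ℝ) / (p - 1)) ≤ ∏ p ∈ q.primeFactors, Real.exp ((1 : ℝ) / p + 1 / (p * (p - 1))) := by
        apply Finset.prod_le_prod
        · intro p hp
          have : (2 : ℝ) ≤ p := by exact_mod_cast (Nat.prime_of_mem_primeFactors hp).two_le
          exact div_nonneg (by linarith) (by linarith)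
        · intro p hp
          have hp2 : (2 : ℝ) ≤ p := by exact_mod_cast (Nat.prime_of_mem_primeFactors hp).two_le
          have e1 := Real.add_one_le_exp ((1 : ℝ) / p + 1 / (p * (p - 1)))
          refine le_trans (le_of_eq ?_) e1
          have h3 : (p : ℝ) ≠ 0 := by linarith
          have h4 : (p : ℝ) - 1 ≠ 0 := by linarith
          field_simp
          ring
    _ = Real.exp (∑ p ∈ q.primeFactors, (1 : ℝ) / p + ∑ p ∈ q.primeFactors, (1 : ℝ) / (p * (p - 1))) := by
        rw [← Real.exp_sum, ← sum_add_distrib]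
    _ ≤ Real.exp (Real.log (Real.log K) + (C₀ + 2)) := Real.exp_le_exp.2 (by linarith)
    _ = Real.exp (C₀ + 2) * Real.log K := by
        rw [Real.exp_add, Real.exp_log hlogK, mul_comm]

/-- `q / φ(q) ≤ C log log b` for `q = b (b ^ 2 - 1)` -/
theorem fi_loglog : ∃ C : ℝ, 0 < C ∧ ∀ b : ℕ, 16 ≤ b → Fi b ≤ C * Real.log (Real.log b) := by
  obtain ⟨C, hC, h⟩ := ratio_le1
  refine ⟨C * 4, by positivity, fun b hb => ?_⟩
  obtain ⟨q, hq⟩ : ∃ q, q = q0 b := ⟨_, rfl⟩
  have hq1 : 1 ≤ q := by rw [hq]; exact q0_pos b (by omega)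
  have hqb : q ≤ b ^ 3 := by
    rw [hq]
    unfold q0
    rw [pow_succ' b 2]
    exact Nat.mul_le_mul_left _ (Nat.sub_le _ _)
  have hl2a := Real.log_two_gt_d9
  have hl2b := Real.log_two_lt_d9
  have hL16 : 4 * Real.log 2 ≤ Real.log b := by
    have h1 : Real.log ((2 : ℝ) ^ 4) ≤ Real.log b := by
      apply Real.log_le_log (by positivity)
      have : (16 : ℝ) ≤ b := by exact_mod_cast hb
      linarith [show (2 : ℝ) ^ 4 = 16 by norm_num]
    rw [Real.log_pow] at h1
    exact_mod_cast h1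
  obtain ⟨x, hx⟩ : ∃ x, x = Real.log b := ⟨_, rfl⟩
  rw [← hx] at hL16 ⊢
  have hx1 : (2.77 : ℝ) ≤ x := by linarith
  -- `log x ≥ 1`
  have hxe : Real.exp 1 ≤ x := by
    have := Real.exp_one_lt_d9
    linarith
  have hlx : 1 ≤ Real.log x := by
    rw [Real.le_log_iff_exp_le (by linarith)]
    exact hxe
  obtain ⟨K, hK⟩ : ∃ K, K = max 3 q.primeFactors.card := ⟨_, rfl⟩
  have hK3 : 3 ≤ K := by rw [hK]; exact le_max_left _ _
  have h1 := h q hq1 K hK3 (by rw [hK]; exact le_max_right _ _)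
  have hK9 : (K : ℝ) ≤ 9 * x := by
    have e1 := card_le_log q hq1
    have e2 : Real.log q ≤ 3 * x := by
      have : (q : ℝ) ≤ (b : ℝ) ^ 3 := by exact_mod_cast hqb
      have h3 := Real.log_le_log (by exact_mod_cast (by omega : 0 < q)) this
      rw [Real.log_pow, ← hx] at h3
      exact_mod_cast h3
    have e3 : (q.primeFactors.card : ℝ) ≤ 9 * x := by
      have : (0 : ℝ) ≤ q.primeFactors.card := Nat.cast_nonneg _
      nlinarith
    rw [hK]
    push_cast
    exact max_le (by linarith) e3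
  have hK0 : (0 : ℝ) < K := by exact_mod_cast (by omega : 0 < K)
  have h9 : Real.log 9 ≤ 3 := by
    have e1 : Real.log 9 ≤ Real.log ((2 : ℝ) ^ 4) := Real.log_le_log (by norm_num) (by norm_num)
    rw [Real.log_pow] at e1
    push_cast at e1
    linarith
  have hlogK : Real.log K ≤ 4 * Real.log x := by
    have e1 := Real.log_le_log hK0 hK9
    rw [Real.log_mul (by norm_num) (by linarith)] at e1
    linarith
  unfold Fi
  rw [← hq]
  calc (q : ℝ) / (Nat.totient q : ℝ) ≤ C * Real.log K := h1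
    _ ≤ C * (4 * Real.log x) := mul_le_mul_of_nonneg_left hlogK hC.le
    _ = C * 4 * Real.log x := by ring

end Pool.Agent.H14.RP
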