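import Pool.Agent.H14.RP.Base
import Pool.Agent.H14.RP.Digits2
import Pool.Graph.R_seed8.R482.KB.S4

/-!
# The upper bound with the sharp constant (helper14)
-/

set_option autoImplicit false
set_option linter.unusedSectionVars false
set_option linter.deprecated false

namespace Pool.Agent.H14.RP
open Finset Filter
open Pool.Agent.R482.KB Pool.Agent.R456.RP

/-- the totient factor is small compared with `log b` -/
lemma fi_small (ε : ℝ) (hε : 0 < ε) : ∃ b₀ : ℕ, ∀ b : ℕ, b₀ ≤ b → Fi b ^ 4 ≤ ε * Real.log b := by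
  obtain ⟨C, hC, h⟩ := ratio_le
  have hev : ∀ᶠ x : ℝ in atTop, C ^ 4 * Real.log x ^ 8 ≤ ε / 9 * x := by
    have h1 := (Real.isLittleO_pow_log_id_atTop (n := 8)).bound
      (show (0 : ℝ) < ε / (9 * C ^ 4) by positivity)
    filter_upwards [h1, eventually_ge_atTop 1] with x hx hx1
    have hl := Real.log_nonneg hx1
    simp only [id, Real.norm_eq_abs] at hx
    rw [abs_of_nonneg (by positivity), abs_of_nonneg (by linarith)] at hx
    calc C ^ 4 * Real.log x ^ 8 ≤ C ^ 4 * (ε / (9 * C ^ 4) * x) := mul_le_mul_of_nonneg_left hx (by positivity)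
      _ = ε / 9 * x := by field_simp
  have hl9 : Tendsto (fun b : ℕ => 9 * Real.log b) atTop atTop :=
    (Real.tendsto_log_atTop.comp tendsto_natCast_atTop_atTop).const_mul_atTop (by norm_num)
  obtain ⟨b₀, hb₀⟩ := eventually_atTop.1 ((hl9.eventually hev).and (hl9.eventually_ge_atTop 3))
  refine ⟨max b₀ 2, fun b hb => ?_⟩
  have hb2 : 2 ≤ b := (le_max_right _ _).trans hb
  obtain ⟨g1, g2⟩ := hb₀ b ((le_max_left _ _).trans hb)
  obtain ⟨q, hq⟩ : ∃ q, q = q0 b := ⟨_, rfl⟩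
  have hq1 : 1 ≤ q := by rw [hq]; exact q0_pos b hb2
  have hqb : q ≤ b ^ 3 := by
    rw [hq]
    unfold q0
    rw [pow_succ' b 2]
    exact Nat.mul_le_mul_left _ (Nat.sub_le _ _)
  have hl2a := Real.log_two_gt_d9
  obtain ⟨K, hK⟩ : ∃ K, K = max 3 q.primeFactors.card := ⟨_, rfl⟩
  have hK3 : 3 ≤ K := by rw [hK]; exact le_max_left _ _
  have h1 := h q hq1 K hK3 (by rw [hK]; exact le_max_right _ _)
  have hK9 : (K : ℝ) ≤ 9 * Real.log b := by
    have e1 := card_le_log q hq1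
    have e2 : Real.log q ≤ 3 * Real.log b := by
      have : (q : ℝ) ≤ (b : ℝ) ^ 3 := by exact_mod_cast hqb
      have h3 := Real.log_le_log (by exact_mod_cast (by omega : 0 < q)) this
      rw [Real.log_pow] at h3
      exact_mod_cast h3
    have e3 : (q.primeFactors.card : ℝ) ≤ 9 * Real.log b := by
      have : (0 : ℝ) ≤ q.primeFactors.card := Nat.cast_nonneg _
      nlinarith
    rw [hK]
    push_cast
    exact max_le g2 e3
  have hK0 : (0 : ℝ) < K := by exact_mod_cast (by omega : 0 < K)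
  have hlogK : 0 ≤ Real.log K := Real.log_nonneg (by exact_mod_cast (by omega : 1 ≤ K))
  have hlogK9 : Real.log K ≤ Real.log (9 * Real.log b) := Real.log_le_log hK0 hK9
  have h0 : 0 ≤ (q : ℝ) / (Nat.totient q : ℝ) := by positivity
  unfold Fi
  rw [← hq]
  calc ((q : ℝ) / (Nat.totient q : ℝ)) ^ 4 ≤ (C * Real.log K ^ 2) ^ 4 := pow_le_pow_left₀ h0 h1 4
    _ = C ^ 4 * Real.log K ^ 8 := by ring
    _ ≤ C ^ 4 * Real.log (9 * Real.log b) ^ 8 := by
        apply mul_le_mul_of_nonneg_left _ (by positivity)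
        exact pow_le_pow_left₀ hlogK hlogK9 8
    _ ≤ ε / 9 * (9 * Real.log b) := g1
    _ = ε * Real.log b := by ring

/-- **The upper bound.** -/
theorem upper (ε : ℝ) (hε : 0 < ε) : ∃ b₀ : ℕ, ∀ b : ℕ, b₀ ≤ b →
    ∃ K : ℕ, 2 ≤ K ∧ (K : ℝ) ≤ (1 / 2 + ε) * Real.log b ∧ Cov b K := by
  obtain ⟨b₁, hdig⟩ := digits (ε / 4) (by positivity)
  obtain ⟨b₂, hfi⟩ := fi_small (ε / (4 * 18 * 5 * 66 ^ 4)) (by positivity)
  have hlog : Tendsto (fun b : ℕ => Real.log b) atTop atTop :=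
    Real.tendsto_log_atTop.comp tendsto_natCast_atTop_atTop
  have hev1 : ∀ᶠ b : ℕ in atTop, (8 * Real.log b) ^ 8 ≤ b := by
    have h1 := (Real.isLittleO_pow_log_id_atTop (n := 8)).bound
      (show (0 : ℝ) < 1 / 8 ^ 8 by positivity)
    have h2 := (tendsto_natCast_atTop_atTop (R := ℝ)).eventually h1
    filter_upwards [h2, eventually_ge_atTop 1] with b hb hb1
    have h3 : (0 : ℝ) ≤ Real.log b := Real.log_natCast_nonneg b
    simp only [id, Real.norm_eq_abs] at hb
    rw [abs_of_nonneg (by positivity), abs_of_nonneg (by positivity)] at hb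
    rw [mul_pow]
    have h4 := mul_le_mul_of_nonneg_left hb (show (0 : ℝ) ≤ 8 ^ 8 by positivity)
    calc (8 : ℝ) ^ 8 * Real.log b ^ 8 ≤ 8 ^ 8 * (1 / 8 ^ 8 * b) := h4
      _ = b := by ring
  have hev2 : ∀ᶠ b : ℕ in atTop, (2 * (1 + ε)) * Real.log b ≤ b := by
    have h1 := (Real.isLittleO_pow_log_id_atTop (n := 1)).bound
      (show (0 : ℝ) < 1 / (2 * (1 + ε)) by positivity)
    have h2 := (tendsto_natCast_atTop_atTop (R := ℝ)).eventually h1
    filter_upwards [h2, eventually_ge_atTop 1] with b hb hb1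
    have h3 : (0 : ℝ) ≤ Real.log b := Real.log_natCast_nonneg b
    simp only [id, Real.norm_eq_abs, pow_one] at hb
    rw [abs_of_nonneg h3, abs_of_nonneg (by positivity)] at hb
    have h4 := mul_le_mul_of_nonneg_left hb (show (0 : ℝ) ≤ 2 * (1 + ε) by positivity)
    calc (2 * (1 + ε)) * Real.log b ≤ (2 * (1 + ε)) * (1 / (2 * (1 + ε)) * b) := h4
      _ = b := by field_simp
  obtain ⟨b₃, hb₃⟩ := eventually_atTop.1 ((hev1.and hev2).and
    ((hlog.eventually_ge_atTop (4 * 24 / ε + 1)).and (eventually_ge_atTop 8)))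
  refine ⟨max b₁ (max b₂ b₃), ?_⟩
  intro b hb
  have hbb1 : b₁ ≤ b := (le_max_left _ _).trans hb
  have hbb2 : b₂ ≤ b := ((le_max_left _ _).trans (le_max_right _ _)).trans hb
  obtain ⟨⟨g1, g2⟩, ⟨g3, h8⟩⟩ := hb₃ b (((le_max_right _ _).trans (le_max_right _ _)).trans hb)
  have hbr : (8 : ℝ) ≤ b := by exact_mod_cast h8
  have hbp : (0 : ℝ) < b := by linarith
  have hb2 : 2 ≤ b := by omega
  obtain ⟨L, hL⟩ : ∃ L, L = Real.log b := ⟨_, rfl⟩
  have hrho : (rho b / b) ^ 8 ≤ b := by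
    refine le_trans ?_ g1
    apply pow_le_pow_left₀ (div_nonneg (rho_nonneg b) hbp.le)
    rw [div_le_iff₀ hbp]
    refine (rho_le b hb2).trans ?_
    have h96 : 0 ≤ 4 * 24 / ε := by positivity
    nlinarith
  rw [← hL] at g2 g3
  have hε24 : 24 ≤ ε / 4 * L := by
    have h1 : 4 * 24 / ε ≤ L := by linarith
    rw [div_le_iff₀ hε] at h1
    linarith
  have hL0 : 0 ≤ L := by
    have : 0 ≤ 4 * 24 / ε := by positivity
    linarith
  -- the number of the dense part
  obtain ⟨h, hh⟩ : ∃ h : ℕ, h = ⌈5 * (66 * Fi b) ^ 4⌉₊ := ⟨_, rfl⟩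
  have hFi1 := one_le_Fi b hb2
  have hh1 : 5 * (66 * Fi b) ^ 4 ≤ h := by rw [hh]; exact Nat.le_ceil _
  have hh2 : (18 : ℝ) * h ≤ ε / 4 * L + 18 := by
    have h5 : (h : ℝ) < 5 * (66 * Fi b) ^ 4 + 1 := by
      rw [hh]
      exact Nat.ceil_lt_add_one (by positivity)
    have h6 := hfi b hbb2
    rw [← hL] at h6
    have h7 : 18 * (5 * (66 * Fi b) ^ 4) ≤ ε / 4 * L := by
      calc 18 * (5 * (66 * Fi b) ^ 4) = 18 * 5 * 66 ^ 4 * Fi b ^ 4 := by ring
        _ ≤ 18 * 5 * 66 ^ 4 * (ε / (4 * 18 * 5 * 66 ^ 4) * L) := mul_le_mul_of_nonneg_left h6 (by positivity)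
        _ = ε / 4 * L := by
            field_simp
    linarith
  obtain ⟨m', hm'⟩ : ∃ m' : ℕ, m' = ⌊(1 / 2 + ε / 4) * L⌋₊ := ⟨_, rfl⟩
  have hm'1 : (m' : ℝ) ≤ (1 / 2 + ε / 4) * L := by rw [hm']; exact Nat.floor_le (by positivity)
  obtain ⟨m, hm⟩ : ∃ m : ℕ, m = 2 * (6 * h + 1) + m' := ⟨_, rfl⟩
  have hKr : ((6 * h + m + 2 : ℕ) : ℝ) ≤ (1 / 2 + ε) * L := by
    rw [hm]
    push_cast
    have e : (1 / 2 + ε) * L = (1 / 2 + ε / 4) * L + 3 * (ε / 4 * L) := by ring
    rw [e]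
    linarith
  have hmb : 2 * m ≤ b := by
    have h1 : (m : ℝ) ≤ (1 / 2 + ε) * L := by
      refine le_trans ?_ hKr
      push_cast
      have : (0 : ℝ) ≤ h := Nat.cast_nonneg _
      linarith
    have h2 : (2 : ℝ) * m ≤ b := by
      refine le_trans ?_ g2
      nlinarith
    exact_mod_cast h2
  have hcov := one_base2 b h8 hrho h hh1 m (by
    intro t ht
    obtain ⟨q, hq⟩ : ∃ q, q = t / (b - 1) := ⟨_, rfl⟩
    obtain ⟨r, hr⟩ : ∃ r, r = t % (b - 1) := ⟨_, rfl⟩
    have hrb : r < b - 1 := by rw [hr]; exact Nat.mod_lt _ (by omega)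
    have hqr : q * (b - 1) + r = t := by
      rw [hq, hr, Nat.mul_comm]
      exact Nat.div_add_mod t (b - 1)
    have hq2 : q ≤ 2 * (6 * h + 1) := by
      rw [hq]
      apply Nat.div_le_of_le_mul
      refine ht.trans ?_
      calc (6 * h + 1) * b ≤ (6 * h + 1) * ((b - 1) * 2) := Nat.mul_le_mul_left _ (by omega)
        _ = (b - 1) * (2 * (6 * h + 1)) := by ring
    obtain ⟨l, d1, d2, d3, d4⟩ := hdig b hbb1 r (by omega)
    have hlen : l.length ≤ m' := by
      rw [hm']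
      apply Nat.le_floor
      rw [hL]
      exact d4
    refine ⟨List.replicate q (b - 1) ++ l, ?_, ?_, ?_, ?_⟩
    · rw [List.length_append, List.length_replicate]
      omega
    · intro a ha
      rw [List.mem_append] at ha
      rcases ha with ha | ha
      · rw [List.eq_of_mem_replicate ha]
        refine ⟨by omega, by omega, ?_⟩
        have h1 : Nat.Coprime (b - 1) ((b - 1) + 1) := by
          rw [Nat.coprime_self_add_right]
          exact Nat.coprime_one_right _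
        rwa [Nat.sub_add_cancel (by omega)] at h1
      · exact d1 a ha
    · rw [List.sum_append, List.sum_replicate, smul_eq_mul]
      omega
    · rw [List.sum_append, List.sum_replicate, smul_eq_mul, List.length_append, List.length_replicate]
      omega) hmb
  refine ⟨6 * h + m + 2, by omega, ?_, ?_⟩
  · rw [← hL]
    exact hKr
  · obtain ⟨N₀, hN⟩ := hcov
    refine ⟨N₀, fun N hNN => ?_⟩
    obtain ⟨l, hl1, hl2, hl3⟩ := hN N hNN
    exact ⟨l, by omega, hl2, hl3⟩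

end Pool.Agent.H14.RP
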